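import Pool.Agent.ALG70.BlackBox

/-!
# One-wayness of a function of the answers

`phiInv` is the probability that a reduction inverts `x ↦ φ (f (j x))`; `coll φ` is the collision
probability of `φ`.
-/

set_option autoImplicit false
set_option linter.unusedSectionVars false

open scoped BigOperators

namespace Pool.Agent.ALG70

open Pool.Agent.PKE70

variable {K D R X Y PK C ΩS : Type} [Ring K] [AddCommGroup R] [Module K R]
variable [DecidableEq D] [Fintype D] [Fintype R] [DecidableEq R] [Fintype X] [DecidableEq Y]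
variable [Fintype ΩS]

/-- The collision probability of `φ`: the probability that `φ` has the same value at two random
elements of `R`. -/
noncomputable def coll {R Y : Type} [Fintype R] [DecidableEq Y] (φ : R → Y) : ℝ :=
  𝔼 a : R, 𝔼 b : R, if φ b = φ a then 1 else 0

/-- The probability that the reduction `red`, with access to the oracle `f` and to the adversary
`A`, inverts the function `x ↦ φ (f (j x))` at a random point `x`: given `φ (f (j x))` it finds some
`z` with `φ (f (j z)) = φ (f (j x))`. -/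
noncomputable def phiInv {D R X Y PK C ΩS : Type} [Fintype X] [DecidableEq Y] [Fintype ΩS]
    (φ : R → Y) (j : X → D) (red : Y → ΩS → RAlg D R (PK × C) X) (f : D → R)
    (A : PK → C → Bool) : ℝ :=
  𝔼 x : X, 𝔼 σ : ΩS,
    if φ (f (j ((red (φ (f (j x))) σ).run f fun z => A z.1 z.2))) = φ (f (j x)) then 1 else 0

variable {W : Submodule K (D → R)} {j : X → D}

theorem coll_nonneg (φ : R → Y) : 0 ≤ coll φ :=
  Finset.expect_nonneg fun _ _ => Finset.expect_nonneg fun _ _ => by split_ifs <;> norm_num

/-- finding a preimage of a fixed value by luck -/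
theorem luck_phi (hj : InfoSet j W) {r : ℕ} (hr : Module.length K R ≤ r) (φ : R → Y) (y : Y)
    (T : QAlg D R X) (n : ℕ) (hT : ∀ f, T.cost f ≤ n) :
    𝔼 w ∈ El W, ind (φ (w (j (T.run w))) = y) ≤
      (r * n + 1) * 𝔼 b : R, (if φ b = y then (1 : ℝ) else 0) := by
  classical
  have h1 : ∀ a : R, 𝔼 w ∈ El W, ind (w (j (T.run w)) = a) ≤ (r * n + 1) / Fintype.card R := by
    intro a
    have h6 := luck hj hr a T n ∅ 0 fun w _ => hT _
    have h7 : mart W j a ∅ 0 = 0 := by
      rw [mart]
      refine Finset.sum_eq_zero fun x _ => ?_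
      rw [pr_empty hj, sub_self]
    rw [h7, van_empty] at h6
    simpa using h6
  have h2 : ∀ w : D → R, ind (φ (w (j (T.run w))) = y) =
      ∑ a : R, (if φ a = y then 1 else 0) * ind (w (j (T.run w)) = a) := by
    intro w
    have h3 : ∀ a : R, (if φ a = y then (1 : ℝ) else 0) * ind (w (j (T.run w)) = a) =
        if w (j (T.run w)) = a then (if φ a = y then (1 : ℝ) else 0) else 0 := by
      intro a
      rw [ind_eq]
      split_ifs <;> simp
    rw [Finset.sum_congr rfl fun a _ => h3 a, Finset.sum_ite_eq, ind_eq]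
    simp
  have h4 : ∀ w ∈ El W, ind (φ (w (j (T.run w))) = y) =
      ∑ a : R, (if φ a = y then 1 else 0) * ind (w (j (T.run w)) = a) := fun w _ => h2 w
  rw [Finset.expect_congr rfl h4, Finset.expect_sum_comm]
  calc ∑ a : R, 𝔼 w ∈ El W, (if φ a = y then 1 else 0) * ind (w (j (T.run w)) = a)
      = ∑ a : R, (if φ a = y then 1 else 0) * 𝔼 w ∈ El W, ind (w (j (T.run w)) = a) :=
        Finset.sum_congr rfl fun a _ => (Finset.mul_expect _ _ _).symm
    _ ≤ ∑ a : R, (if φ a = y then (1 : ℝ) else 0) *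
        (((r : ℝ) * n + 1) / Fintype.card R) := by
        refine Finset.sum_le_sum fun a _ => mul_le_mul_of_nonneg_left (h1 a) ?_
        split_ifs <;> norm_num
    _ = (r * n + 1) * 𝔼 b : R, (if φ b = y then (1 : ℝ) else 0) := by
        rw [← Finset.sum_mul, Fintype.expect_eq_sum_div_card]
        ring

/-- **A function of the restriction of a random linear oracle to an information set is hard to
invert.** -/
theorem inversion_phi (hj : InfoSet j W) {r : ℕ} (hr : Module.length K R ≤ r) (φ : R → Y)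
    (T : Y → QAlg D R X) {n : ℕ} (hT : ∀ y f, (T y).cost f ≤ n) :
    𝔼 f ∈ El W, 𝔼 x : X, ind (φ (f (j ((T (φ (f (j x)))).run f))) = φ (f (j x))) ≤
      (r * (n + 1) + 1) * (1 / (Fintype.card X : ℝ) + coll φ) := by
  classical
  have hc := coll_nonneg φ
  rcases isEmpty_or_nonempty X with hX | hX
  · simp only [Finset.univ_eq_empty, Finset.expect_empty]
    rw [Finset.expect_const (El_nonempty W)]
    positivity
  have hXr : (0 : ℝ) < Fintype.card X := by exact_mod_cast Fintype.card_pos
  -- the algorithm that checks its output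
  set T' : Y → QAlg D R Bool := fun y => (T y).bind fun z => .ask (j z) fun a =>
    .ret (decide (φ a = y)) with hT'
  have hrun : ∀ y f, (T' y).run f = decide (φ (f (j ((T y).run f))) = y) := by
    intro y f
    simp only [hT', QAlg.run_bind, QAlg.run_ask, QAlg.run_ret]
  have hk : ∀ y f, ind ((T' y).run f = true) = ind (φ (f (j ((T y).run f))) = y) := by
    intro y f
    rw [hrun]
    by_cases h : φ (f (j ((T y).run f))) = y
    · rw [ind_true h, ind_true (by simpa using h)]
    · rw [ind_false h, ind_false (by simpa using h)]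
  have hcost : ∀ y f, ((T' y).queries f).card ≤ n + 1 := by
    intro y f
    refine (QAlg.card_queries_le f (T' y)).trans ?_
    simp only [hT', QAlg.cost_bind, QAlg.cost_ask, QAlg.cost_ret]
    have := hT y f
    omega
  rw [Finset.expect_comm]
  have h1 : ∀ x : X, 𝔼 f ∈ El W, ind (φ (f (j ((T (φ (f (j x)))).run f))) = φ (f (j x))) ≤
      𝔼 u : R, 𝔼 w ∈ El W, ind (φ (w (j ((T (φ u)).run w))) = φ u) +
      𝔼 u : R, 𝔼 w ∈ El W, mi W ((T' (φ u)).queries w) {j x} := by
    intro x
    rw [expect_value hj x fun u f => ind (φ (f (j ((T (φ u)).run f))) = φ u),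
      ← Finset.expect_add_distrib]
    refine Finset.expect_le_expect fun y _ => ?_
    have hu := (Classical.choose_spec (hj.2 fun _ => y)).1
    set u := Classical.choose (hj.2 fun _ => y) with hudef
    have h2 := real_le_ideal W {j x} u (T' (φ y)).queries
      (fun f => ind ((T' (φ y)).run f = true))
      (fun _ => ind_nonneg _) (fun _ => ind_le_one _)
      (fun f f' hf => by
        obtain ⟨h3, h4⟩ := QAlg.local_run (T' (φ y)) hf
        exact ⟨h4, by rw [h3]⟩)
    simp only [hk] at h2
    rw [expect_add_left hu (fun f => ind (φ (f (j ((T (φ y)).run f))) = φ y)),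
      expect_add_left hu (fun f => 1 - ind (Ind W ((T' (φ y)).queries f) {j x}))] at h2
    refine h2.trans (add_le_add le_rfl ?_)
    exact Finset.expect_le_expect fun w _ => one_sub_ind_le_mi _ _ _
  have h5 : 𝔼 u : R, 𝔼 w ∈ El W, ind (φ (w (j ((T (φ u)).run w))) = φ u) ≤
      (r * n + 1) * coll φ := by
    rw [coll, Finset.mul_expect]
    exact Finset.expect_le_expect fun u _ => luck_phi hj hr φ (φ u) (T (φ u)) n (hT _)
  have h8 : 𝔼 x : X, 𝔼 u : R, 𝔼 w ∈ El W, mi W ((T' (φ u)).queries w) {j x} ≤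
      r * (n + 1) / Fintype.card X := by
    rw [Finset.expect_comm]
    refine expect_mem_le_of_le (by positivity) fun y _ => ?_
    rw [Finset.expect_comm]
    refine expect_mem_le_of_le (by positivity) fun w _ => ?_
    rw [Fintype.expect_eq_sum_div_card, div_le_div_iff_of_pos_right hXr]
    refine (sum_mi_le_card hj _ hr).trans ?_
    have : (((T' (φ y)).queries w).card : ℝ) ≤ n + 1 := by exact_mod_cast hcost (φ y) w
    gcongr
  calc 𝔼 x : X, 𝔼 f ∈ El W, ind (φ (f (j ((T (φ (f (j x)))).run f))) = φ (f (j x)))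
      ≤ 𝔼 x : X, (𝔼 u : R, 𝔼 w ∈ El W, ind (φ (w (j ((T (φ u)).run w))) = φ u) +
        𝔼 u : R, 𝔼 w ∈ El W, mi W ((T' (φ u)).queries w) {j x}) :=
        Finset.expect_le_expect fun x _ => h1 x
    _ = 𝔼 u : R, 𝔼 w ∈ El W, ind (φ (w (j ((T (φ u)).run w))) = φ u) +
        𝔼 x : X, 𝔼 u : R, 𝔼 w ∈ El W, mi W ((T' (φ u)).queries w) {j x} := by
        rw [Finset.expect_add_distrib, Fintype.expect_const]
    _ ≤ (r * n + 1) * coll φ + r * (n + 1) / Fintype.card X := add_le_add h5 h8
    _ ≤ (r * (n + 1) + 1) * coll φ + (r * (n + 1) + 1) / Fintype.card X := by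
        have h0 : (0 : ℝ) ≤ r := Nat.cast_nonneg r
        have h9 : (r * n + 1 : ℝ) * coll φ ≤ (r * (n + 1) + 1) * coll φ :=
          mul_le_mul_of_nonneg_right (by linarith) hc
        have h10 : (r * (n + 1) : ℝ) / Fintype.card X ≤
            (r * (n + 1) + 1) / Fintype.card X := by
          gcongr
          linarith
        linarith
    _ = _ := by ring

theorem inversion_phi' {W : Submodule K (D → R)} {j : X → D} (hj : InfoSet j W) {r : ℕ}
    (hr : Module.length K R ≤ r) (φ : R → Y) (T : Y → QAlg D R X) (n : ℕ)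
    (hcost : ∀ y f, (T y).cost f ≤ n) (c : ℝ)
    (hc : (r * ((n : ℝ) + 1) + 1) * (1 / (Fintype.card X : ℝ) + coll φ) = c) :
    𝔼 f ∈ El W, 𝔼 x : X, ind (φ (f (j ((T (φ (f (j x)))).run f))) = φ (f (j x))) ≤ c := by
  rw [← hc]
  exact inversion_phi hj hr φ T hcost

theorem phiInv_toQ {W : Submodule K (D → R)} {j : X → D} (φ : R → Y)
    (red : Y → ΩS → RAlg D R (PK × C) X) (A : PK → C → QAlg D R Bool) :
    𝔼 f ∈ El W, phiInv φ j red f (fun pk c => (A pk c).run f) =
      𝔼 σ : ΩS, 𝔼 f ∈ El W, 𝔼 x : X,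
        ind (φ (f (j (((red (φ (f (j x))) σ).toQ fun z => A z.1 z.2).run f))) = φ (f (j x))) := by
  classical
  rw [Finset.expect_comm]
  refine Finset.expect_congr rfl fun f _ => ?_
  rw [phiInv, Finset.expect_comm]
  refine Finset.expect_congr rfl fun σ _ => Finset.expect_congr rfl fun x _ => ?_
  rw [ind_eq, RAlg.run_toQ]

theorem cost_toQ'' (red : Y → ΩS → RAlg D R (PK × C) X) {t Q : ℕ}
    (hred : ∀ y σ f B, (red y σ).cost f B ≤ t) (A : PK → C → QAlg D R Bool)
    (hA : ∀ pk c f, (A pk c).cost f ≤ Q) (σ : ΩS) (y : Y) (f : D → R) :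
    ((red y σ).toQ fun z => A z.1 z.2).cost f ≤ t * (Q + 1) := by
  have h2 := RAlg.cost_toQ (fun z : PK × C => A z.1 z.2) (fun z f => hA z.1 z.2 f) f (red y σ)
  have h3 := Nat.mul_le_mul_right (Q + 1) (hred y σ f fun z => (A z.1 z.2).run f)
  exact h2.trans h3

/-- the reduction together with the adversary is an inversion algorithm -/
theorem expect_phiInv_le {W : Submodule K (D → R)} {j : X → D} (hj : InfoSet j W) {r : ℕ}
    (hr : Module.length K R ≤ r) (φ : R → Y) (red : Y → ΩS → RAlg D R (PK × C) X) {t Q : ℕ}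
    (hred : ∀ y σ f B, (red y σ).cost f B ≤ t) (A : PK → C → QAlg D R Bool)
    (hA : ∀ pk c f, (A pk c).cost f ≤ Q) {c : ℝ}
    (hc : (r * (((t * (Q + 1) : ℕ) : ℝ) + 1) + 1) *
      (1 / (Fintype.card X : ℝ) + coll φ) = c) :
    𝔼 f ∈ El W, phiInv φ j red f (fun pk c => (A pk c).run f) ≤ c := by
  have hc0 : 0 ≤ c := by
    rw [← hc]
    have := coll_nonneg φ
    positivity
  rw [phiInv_toQ]
  refine expect_mem_le_of_le hc0 fun σ _ => ?_
  exact inversion_phi' hj hr φ (fun y => (red y σ).toQ fun z => A z.1 z.2) (t * (Q + 1))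
    (fun y f => cost_toQ'' red hred A hA σ y f) c hc

end Pool.Agent.ALG70
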