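import Pool.Agent.ALG70.LowDeg
import Pool.Agent.ALG70.InvPhi

/-!
# The oracles of Aaronson and Wigderson in characteristic `p`

For each length `n ≤ M + κ` there is a function `A n` from `{0,1}^n` to the field `ZMod p` with `p`
elements (a Boolean function, if `p = 2`), and for each `n` and each of finitely many fields `F i`
of characteristic `p` an extension of `A n`: a polynomial over `F i` in `n` variables, of degree at
most `c` in each variable, which agrees with `A n` on `{0,1}^n`. The answers are strings of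
`2 ^ κ` elements of `ZMod p`.
-/

set_option autoImplicit false

open scoped BigOperators

namespace Pool.Agent.ALG70

open MvPolynomial

/-- Strings of `2 ^ κ` elements of `ZMod p`, labelled by the elements of `{0,1}^κ`; strings of bits,
if `p = 2`. -/
abbrev Bits (p κ : ℕ) : Type := (Fin κ → Bool) → ZMod p

/-- The queries: a point `x` of `{0,1}^k`, `k ≤ M` (it asks for all `A (k + κ) (x, l)`), or a
point of `(F i)^n`, `n ≤ M + κ`. -/
abbrev AWQuery (M κ : ℕ) {I : Type} (F : I → Type) : Type :=
  (Σ k : Fin (M + 1), Fin k → Bool) ⊕ (Σ n : Fin (M + κ + 1), Σ i : I, Fin n → F i)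

section

variable {p : ℕ} [Fact p.Prime] {I : Type} {F : I → Type} [∀ i, Field (F i)]
  [∀ i, Algebra (ZMod p) (F i)]

/-- The function `f` answers the queries according to the functions `A n` and to
polynomials over the fields `F i` which extend them and are of degree at most `c` in each
variable; the elements of `F i` are encoded by the map `ι i`. -/
def Extends {M κ : ℕ} (c : ℕ) (ι : ∀ i, F i →ₗ[ZMod p] Bits p κ)
    (A : ∀ n, (Fin n → Bool) → ZMod p) (f : AWQuery M κ F → Bits p κ) : Prop :=
  (∀ (k : Fin (M + 1)) (x : Fin k → Bool) (l : Fin κ → Bool),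
    f (Sum.inl ⟨k, x⟩) l = A (k + κ) (Fin.append x l)) ∧
  ∀ (n : Fin (M + κ + 1)) (i : I), ∃ P ∈ restrictDegree (Fin n) (F i) c,
    (∀ y : Fin n → Bool,
      eval (fun v => if y v then 1 else 0) P = algebraMap (ZMod p) (F i) (A n y)) ∧
    ∀ z : Fin n → F i, f (Sum.inr ⟨n, i, z⟩) = ι i (eval z P)

/-- all oracles of Aaronson and Wigderson over the fields `F i` -/
def AW (M : ℕ) {κ : ℕ} (c : ℕ) (ι : ∀ i, F i →ₗ[ZMod p] Bits p κ) :
    Submodule (ZMod p) (AWQuery M κ F → Bits p κ) where
  carrier := {f | ∃ A, Extends c ι A f}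
  zero_mem' := by
    refine ⟨fun _ _ => 0, fun k x l => rfl, fun n i => ⟨0, Submodule.zero_mem _, ?_, ?_⟩⟩
    · intro y
      rw [map_zero, map_zero]
    · intro z
      rw [map_zero, map_zero]
      rfl
  add_mem' := by
    rintro f g ⟨A, hA1, hA2⟩ ⟨B, hB1, hB2⟩
    refine ⟨fun n y => A n y + B n y, fun k x l => ?_, fun n i => ?_⟩
    · exact congrArg₂ (· + ·) (hA1 k x l) (hB1 k x l)
    · obtain ⟨P, hp1, hp2, hp3⟩ := hA2 n i
      obtain ⟨P', hp1', hp2', hp3'⟩ := hB2 n i
      refine ⟨P + P', Submodule.add_mem _ hp1 hp1', fun y => ?_, fun z => ?_⟩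
      · rw [map_add, hp2, hp2', map_add]
      · rw [map_add, map_add, ← hp3, ← hp3']
        rfl
  smul_mem' := by
    rintro a f ⟨A, hA1, hA2⟩
    refine ⟨fun n y => a * A n y, fun k x l => ?_, fun n i => ?_⟩
    · exact congrArg (a * ·) (hA1 k x l)
    · obtain ⟨P, hp1, hp2, hp3⟩ := hA2 n i
      refine ⟨algebraMap (ZMod p) (F i) a • P, Submodule.smul_mem _ _ hp1, fun y => ?_,
        fun z => ?_⟩
      · rw [smul_eval, hp2, map_mul]
      · rw [smul_eval, ← Algebra.smul_def, map_smul, ← hp3]
        rfl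

end

/-- every function on `{0,1}^n` has an extension of degree at most one in each variable -/
theorem exists_ext (K : Type) [Field K] {n c : ℕ} (hc : 1 ≤ c) (g : (Fin n → Bool) → K) :
    ∃ p ∈ restrictDegree (Fin n) K c, ∀ y : Fin n → Bool,
      eval (fun v => if y v then 1 else 0) p = g y := by
  classical
  have hT : ({0, 1} : Finset K).card = 1 + 1 := by rw [Finset.card_pair zero_ne_one]
  obtain ⟨-, hsur⟩ := infoSet_lowDeg n 1 ({0, 1} : Finset K) hT
  obtain ⟨f, hf, hfg⟩ := hsur fun x => g fun v => decide ((x v : K) = 1)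
  obtain ⟨p, hp, rfl⟩ := hf
  refine ⟨p, ?_, fun y => ?_⟩
  · have hp' : p ∈ restrictDegree (Fin n) K 1 := hp
    rw [mem_restrictDegree] at hp' ⊢
    exact fun s hs i => (hp' s hs i).trans hc
  · have h1 := hfg fun v => ⟨if y v then 1 else 0, by split_ifs <;> simp⟩
    have h2 : (fun v => decide ((if y v = true then (1 : K) else 0) = 1)) = y := by
      funext v
      cases y v <;> simp
    dsimp only at h1
    rw [h2] at h1
    exact h1

/-- All `A (k + κ) (x, l)`, as functions of `x ∈ {0,1}^k`, can be prescribed. -/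
theorem infoSet_AW {p : ℕ} [Fact p.Prime] {I : Type} {F : I → Type} [∀ i, Field (F i)]
    [∀ i, Algebra (ZMod p) (F i)] {M κ c : ℕ} (hc : 1 ≤ c)
    (ι : ∀ i, F i →ₗ[ZMod p] Bits p κ) (k : Fin (M + 1)) :
    InfoSet (fun x : Fin k → Bool => (Sum.inl ⟨k, x⟩ : AWQuery M κ F)) (AW M c ι) := by
  constructor
  · intro x y h
    have h1 := Sum.inl.inj h
    simpa using h1
  · intro h
    let g : (Fin (k + κ) → Bool) → ZMod p := fun y =>
      h (fun a => y (Fin.castAdd κ a)) fun l => y (Fin.natAdd k l)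
    let A : ∀ n, (Fin n → Bool) → ZMod p :=
      Function.update (fun n (_ : Fin n → Bool) => (0 : ZMod p)) (k + κ) g
    choose P hP1 hP2 using fun (n : Fin (M + κ + 1)) (i : I) =>
      exists_ext (F i) hc fun y : Fin n → Bool => algebraMap (ZMod p) (F i) (A n y)
    let f : AWQuery M κ F → Bits p κ := fun w =>
      match w with
      | Sum.inl ⟨k', x⟩ => fun l => A (k' + κ) (Fin.append x l)
      | Sum.inr ⟨n, i, z⟩ => ι i (eval z (P n i))
    refine ⟨f, ⟨A, fun k' x l => rfl, fun n i => ⟨P n i, hP1 n i, hP2 n i, fun z => rfl⟩⟩, ?_⟩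
    intro x
    funext l
    change A (k + κ) (Fin.append x l) = h x l
    have h1 : A (k + κ) = g := Function.update_self _ _ _
    rw [h1]
    change h (fun a => Fin.append x l (Fin.castAdd κ a))
      (fun b => Fin.append x l (Fin.natAdd k b)) = h x l
    simp only [Fin.append_left, Fin.append_right]

theorem length_bits (p : ℕ) [Fact p.Prime] (κ : ℕ) :
    Module.length (ZMod p) (Bits p κ) = (2 ^ κ : ℕ) := by
  rw [Module.length_eq_finrank]
  simp

/-! ### Boolean functions for every `p` -/

/-- the bits `[y l = 0]` -/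
def zeros (p κ : ℕ) (y : Bits p κ) : (Fin κ → Bool) → Bool := fun l => decide (y l = 0)

theorem sum_zero_iff (p : ℕ) [Fact p.Prime] :
    ∑ u : ZMod p, ∑ v : ZMod p, (if decide (v = 0) = decide (u = 0) then (1 : ℝ) else 0) =
      p ^ 2 - 2 * p + 2 := by
  classical
  have h1 : ∀ u : ZMod p, ∑ v : ZMod p,
      (if decide (v = 0) = decide (u = 0) then (1 : ℝ) else 0) =
      if u = 0 then (1 : ℝ) else (p : ℝ) - 1 := by
    intro u
    by_cases hu : u = 0
    · subst hu
      simp
    · have h2 : ∀ v : ZMod p, (if decide (v = 0) = decide (u = 0) then (1 : ℝ) else 0) =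
          1 - if v = 0 then 1 else 0 := by
        intro v
        by_cases hv : v = 0 <;> simp [hu, hv]
      rw [Finset.sum_congr rfl fun v _ => h2 v, Finset.sum_sub_distrib, if_neg hu]
      simp
  have h3 : ∀ u : ZMod p, (if u = 0 then (1 : ℝ) else (p : ℝ) - 1) =
      ((p : ℝ) - 1) + if u = 0 then 2 - (p : ℝ) else 0 := by
    intro u
    split_ifs
    · ring
    · ring
  rw [Finset.sum_congr rfl fun u _ => (h1 u).trans (h3 u), Finset.sum_add_distrib]
  simp
  ring

/-- the collision probability of `zeros` -/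
theorem coll_zeros (p κ : ℕ) [Fact p.Prime] :
    coll (zeros p κ) = (((p : ℝ) ^ 2 - 2 * p + 2) / p ^ 2) ^ (2 ^ κ) := by
  classical
  have h1 : ∀ a b : Bits p κ, (if zeros p κ b = zeros p κ a then (1 : ℝ) else 0) =
      ∏ l, if decide (b l = 0) = decide (a l = 0) then (1 : ℝ) else 0 := by
    intro a b
    by_cases h : zeros p κ b = zeros p κ a
    · rw [if_pos h, Finset.prod_eq_one]
      intro l _
      exact if_pos (congrFun h l)
    · rw [if_neg h]
      obtain ⟨l, hl⟩ := Function.ne_iff.mp h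
      rw [Finset.prod_eq_zero (Finset.mem_univ l)]
      exact if_neg hl
  have h2 : ∑ a : Bits p κ, ∑ b : Bits p κ,
      (if zeros p κ b = zeros p κ a then (1 : ℝ) else 0) =
      ((p : ℝ) ^ 2 - 2 * p + 2) ^ (2 ^ κ) := by
    simp only [h1]
    have h3 : ∀ a : Bits p κ, ∑ b : Bits p κ,
        ∏ l, (if decide (b l = 0) = decide (a l = 0) then (1 : ℝ) else 0) =
        ∏ l, ∑ v : ZMod p, if decide (v = 0) = decide (a l = 0) then (1 : ℝ) else 0 := by
      intro a
      rw [Finset.prod_univ_sum, Fintype.piFinset_univ]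
    have h4 : ∑ a : Bits p κ, ∏ l, ∑ v : ZMod p,
        (if decide (v = 0) = decide (a l = 0) then (1 : ℝ) else 0) =
        ∏ _l : Fin κ → Bool, ∑ u : ZMod p, ∑ v : ZMod p,
          if decide (v = 0) = decide (u = 0) then (1 : ℝ) else 0 := by
      rw [Finset.prod_univ_sum, Fintype.piFinset_univ]
    rw [Finset.sum_congr rfl fun a _ => h3 a, h4, sum_zero_iff]
    simp
  have h5 : coll (zeros p κ) = (∑ a : Bits p κ, ∑ b : Bits p κ,
      (if zeros p κ b = zeros p κ a then (1 : ℝ) else 0)) / Fintype.card (Bits p κ) ^ 2 := by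
    rw [coll, Fintype.expect_eq_sum_div_card]
    simp only [Fintype.expect_eq_sum_div_card]
    rw [← Finset.sum_div, div_div, sq]
  rw [h5, h2, div_pow]
  congr 1
  simp [ZMod.card]
  ring

/-- Every oracle contains Boolean functions with extensions of degree at most `(p - 1) c`. -/
theorem exists_bool {p : ℕ} [Fact p.Prime] {I : Type} {F : I → Type} [∀ i, Field (F i)]
    [∀ i, Algebra (ZMod p) (F i)] {M κ c : ℕ} (ι : ∀ i, F i →ₗ[ZMod p] Bits p κ)
    (hι : ∀ i, Function.Injective (ι i)) :
    ∃ g : ∀ i, Bits p κ → F i, ∀ f ∈ AW M c ι, ∃ A : ∀ n, (Fin n → Bool) → Bool,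
      (∀ (k : Fin (M + 1)) (x : Fin k → Bool),
        zeros p κ (f (Sum.inl ⟨k, x⟩)) = fun l => A (k + κ) (Fin.append x l)) ∧
      ∀ (n : Fin (M + κ + 1)) (i : I), ∃ P ∈ restrictDegree (Fin n) (F i) ((p - 1) * c),
        (∀ y : Fin n → Bool,
          eval (fun v => if y v then 1 else 0) P = if A n y then 1 else 0) ∧
        ∀ z : Fin n → F i, g i (f (Sum.inr ⟨n, i, z⟩)) = eval z P := by
  classical
  refine ⟨fun i y => 1 - Function.invFun (ι i) y ^ (p - 1), ?_⟩
  rintro f ⟨A, hA1, hA2⟩
  refine ⟨fun n y => decide (A n y = 0), fun k x => ?_, fun n i => ?_⟩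
  · funext l
    rw [zeros, hA1]
  · obtain ⟨P, hP1, hP2, hP3⟩ := hA2 n i
    refine ⟨1 - P ^ (p - 1), ?_, fun y => ?_, fun z => ?_⟩
    · rw [mem_restrictDegree] at hP1 ⊢
      have hd : ∀ v, degreeOf v P ≤ c := fun v => by
        rw [degreeOf_le_iff]
        exact fun s hs => hP1 s hs v
      intro s hs v
      have h1 : degreeOf v (1 - P ^ (p - 1)) ≤ (p - 1) * c := by
        refine (degreeOf_sub_le v _ _).trans (max_le ?_ ?_)
        · rw [← C_1, degreeOf_C]
          exact Nat.zero_le _
        · exact (degreeOf_pow_le v P (p - 1)).trans (Nat.mul_le_mul_left _ (hd v))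
      exact degreeOf_le_iff.mp h1 s hs
    · rw [map_sub, map_pow, hP2, map_one, ← map_pow]
      by_cases h : A n y = 0
      · have hp : p - 1 ≠ 0 := by
          have := (Fact.out : p.Prime).two_le
          omega
        simp [h, hp]
      · rw [ZMod.pow_card_sub_one_eq_one h]
        simp [h]
    · have h1 : Function.invFun (ι i) (ι i (eval z P)) = eval z P :=
        Function.leftInverse_invFun (hι i) _
      rw [hP3, map_sub, map_pow, map_one]
      change 1 - Function.invFun (ι i) (ι i (eval z P)) ^ (p - 1) = _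
      rw [h1]

end Pool.Agent.ALG70
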