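import Pool.Agent.ALG70.Main2

/-!
# The adversary as an oracle algorithm
-/

set_option autoImplicit false
set_option linter.unusedSectionVars false

open scoped BigOperators

namespace Pool.Agent.ALG70

open Pool.Agent.PKE70

variable {K D R : Type} [Ring K] [AddCommGroup R] [Module K R]
variable [DecidableEq D] [Fintype D] [Fintype R]

namespace PKE

variable {PK SK C ΩG ΩE ΩD : Type} [Fintype ΩG] [Fintype ΩE] [Fintype ΩD]
variable (S : PKE D R PK SK C ΩG ΩE ΩD) (W : Submodule K (D → R))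
variable (n₁ t₁ n₂ : ℕ) (τ : PK → (D → Option R) → ℕ)

/-- the adversary -/
noncomputable def eve (pk : PK) (c : C) : QAlg D R Bool :=
  (lrn W (P1 ΩG W) Prod.fst S.Q1 S.o1 n₁ pk t₁ fun _ => none).bind fun v =>
    (lrn W (P2 ΩE W) Prod.fst (S.Q2 pk) (S.o2 pk) n₂ c (τ pk v) v).bind fun v' =>
      .ret (S.ml W pk c v')

theorem run_eve (pk : PK) (c : C) (f : D → R) :
    (S.eve W n₁ t₁ n₂ τ pk c).run f =
      S.ml W pk c (S.k2 W n₂ τ pk (S.k1 W n₁ t₁ pk f) c f) := by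
  rw [eve, QAlg.run_bind, run_lrn, QAlg.run_bind, run_lrn]
  rfl

theorem cost_eve {τ' : ℕ} (hτ' : ∀ pk v, τ pk v ≤ τ') (pk : PK) (c : C) (f : D → R) :
    (S.eve W n₁ t₁ n₂ τ pk c).cost f ≤ t₁ * n₁ + τ' * n₂ := by
  rw [eve, QAlg.cost_bind, QAlg.cost_bind, QAlg.cost_ret]
  have h1 := cost_lrn W (P1 ΩG W) Prod.fst S.Q1 S.o1 n₁ pk f t₁ fun _ => none
  have h2 := cost_lrn W (P2 ΩE W) Prod.fst (S.Q2 pk) (S.o2 pk) n₂ c f
    (τ pk ((lrn W (P1 ΩG W) Prod.fst S.Q1 S.o1 n₁ pk t₁ fun _ => none).run f))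
    ((lrn W (P1 ΩG W) Prod.fst S.Q1 S.o1 n₁ pk t₁ fun _ => none).run f)
  have h3 := Nat.mul_le_mul_right n₂
    (hτ' pk ((lrn W (P1 ΩG W) Prod.fst S.Q1 S.o1 n₁ pk t₁ fun _ => none).run f))
  omega

theorem advProb_eve : S.advProb W (S.eve W n₁ t₁ n₂ τ) = S.advE W n₁ t₁ n₂ τ := by
  rw [advProb, advE, Finset.expect_comm]
  simp only [run_eve, ind_eq]
  rfl

theorem cost_arith {x q t T' k₁ k₂ : ℝ} (hx6 : 6 ≤ x) (hq0 : 0 ≤ q) (ht0 : 0 ≤ t)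
    (htx : t ≤ x) (hT0 : 0 ≤ T') (hTx : T' ≤ x) (hk₂0 : 0 ≤ k₂) (hk₂ : k₂ ≤ 2 * x + 1)
    (hk₁ : k₁ ≤ x * (1 + T' * k₂) + 1) (hk₁0 : 0 ≤ k₁) :
    t * (k₁ * q) + T' * (k₂ * q) ≤ 488 / 216 * (x ^ 4 * q) := by
  have hx0 : 0 ≤ x := by linarith
  have hk : k₂ ≤ 13 / 6 * x := by linarith
  have h2 : T' * k₂ ≤ 13 / 6 * x ^ 2 := by
    calc T' * k₂ ≤ x * (13 / 6 * x) := mul_le_mul hTx hk hk₂0 hx0
      _ = 13 / 6 * x ^ 2 := by ring
  have hxx : 36 ≤ x ^ 2 := by nlinarith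
  have h5 : x ≤ x ^ 3 / 36 := by
    have : x * 36 ≤ x * x ^ 2 := mul_le_mul_of_nonneg_left hxx hx0
    have h : x * x ^ 2 = x ^ 3 := by ring
    linarith
  have h6 : 1 ≤ x ^ 3 / 216 := by linarith
  have h3 : x * (1 + T' * k₂) ≤ x + 13 / 6 * x ^ 3 := by
    calc x * (1 + T' * k₂) ≤ x * (1 + 13 / 6 * x ^ 2) := by
          exact mul_le_mul_of_nonneg_left (by linarith) hx0
      _ = x + 13 / 6 * x ^ 3 := by ring
  have h4 : k₁ ≤ 475 / 216 * x ^ 3 := by linarith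
  have h7 : t * k₁ ≤ 475 / 216 * x ^ 4 := by
    calc t * k₁ ≤ x * (475 / 216 * x ^ 3) := mul_le_mul htx h4 hk₁0 hx0
      _ = 475 / 216 * x ^ 4 := by ring
  have h9 : x ^ 2 ≤ x ^ 4 / 36 := by
    have : x ^ 2 * 36 ≤ x ^ 2 * x ^ 2 := mul_le_mul_of_nonneg_left hxx (sq_nonneg x)
    have h : x ^ 2 * x ^ 2 = x ^ 4 := by ring
    linarith
  have h10 : t * k₁ + T' * k₂ ≤ 488 / 216 * x ^ 4 := by linarith
  calc t * (k₁ * q) + T' * (k₂ * q) = (t * k₁ + T' * k₂) * q := by ring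
    _ ≤ 488 / 216 * x ^ 4 * q := mul_le_mul_of_nonneg_right h10 hq0
    _ = 488 / 216 * (x ^ 4 * q) := by ring

/-- **The attack.** -/
theorem attack {q r : ℕ} (hq : S.QueryBound q) (hq1 : 1 ≤ q) (hr : Module.length K R ≤ r)
    (hr1 : 1 ≤ r) {ε : ℝ} (hε : 0 < ε) (hε1 : ε ≤ 1) :
    ∃ A : PK → C → QAlg D R Bool,
      (∀ pk c f, ((A pk c).cost f : ℝ) ≤ 3000 * r ^ 4 * q ^ 5 / ε ^ 4) ∧
      S.decProb W ≤ S.advProb W A + ε := by
  classical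
  set x : ℝ := 6 * (r * q) / ε with hx
  have hqr : (1 : ℝ) ≤ q := by exact_mod_cast hq1
  have hrr : (1 : ℝ) ≤ r := by exact_mod_cast hr1
  have hrq : (1 : ℝ) ≤ r * q := by nlinarith
  have hx6 : 6 ≤ x := by
    rw [hx, le_div_iff₀ hε]
    nlinarith
  have hxε : x * ε = 6 * (r * q) := by
    rw [hx, div_mul_cancel₀ _ hε.ne']
  -- parameters of the second phase
  set T : ℕ := ⌊x⌋₊ + 1 with hT
  have hT0 : 0 < T := Nat.succ_pos _
  have hTx : x < T := by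
    rw [hT]; push_cast
    exact Nat.lt_floor_add_one x
  have hT1 : ((T - 1 : ℕ) : ℝ) ≤ x := by
    rw [hT, Nat.add_sub_cancel]
    exact Nat.floor_le (by linarith)
  set k₂ : ℕ := ⌊2 * x⌋₊ + 1 with hk₂
  have hk₂0 : 0 < k₂ := Nat.succ_pos _
  have hk₂x : 2 * x < k₂ := by
    rw [hk₂]; push_cast
    exact Nat.lt_floor_add_one _
  have hk₂1 : (k₂ : ℝ) ≤ 2 * x + 1 := by
    rw [hk₂]; push_cast
    have := Nat.floor_le (show 0 ≤ 2 * x by linarith)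
    linarith
  set n₂ : ℕ := k₂ * q with hn₂
  have hTr : (0 : ℝ) < T := by exact_mod_cast hT0
  have hsmall : (r * q : ℝ) / T ≤ ε / 6 := by
    rw [div_le_iff₀ hTr]
    nlinarith
  -- the times of the second phase
  have hτex : ∀ (pk : PK) (v : D → Option R), ∃ t < T, 𝔼 z ∈ start (P2 ΩE W) Prod.fst v,
      cap W (P2 ΩE W) Prod.fst (S.Q2 pk) (S.o2 pk) n₂ (S.o2 pk z)
        (know W (P2 ΩE W) Prod.fst (S.Q2 pk) (S.o2 pk) n₂ (S.o2 pk z) z.1 v t) ≤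
          (r * q : ℝ) / T := fun pk v =>
    exists_time W (P2 ΩE W) Prod.fst (S.Q2 pk) (S.o2 pk) n₂ hr
      (fun z _ => (QAlg.card_queries_le _ _).trans (hq.2.1 _ _ _ _)) v hT0
  set τ : PK → (D → Option R) → ℕ := fun pk v => Classical.choose (hτex pk v) with hτdef
  have hτlt : ∀ pk v, τ pk v ≤ T - 1 := fun pk v =>
    Nat.le_sub_one_of_lt (Classical.choose_spec (hτex pk v)).1
  have hτcap : ∀ pk v, 𝔼 z ∈ start (P2 ΩE W) Prod.fst v,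
      S.c2 W n₂ pk (S.o2 pk z) (S.k2 W n₂ τ pk v (S.o2 pk z) z.1) ≤ (r * q : ℝ) / T :=
    fun pk v => (Classical.choose_spec (hτex pk v)).2
  -- parameters of the first phase
  set y : ℝ := r * (q + ((T - 1 : ℕ) : ℝ) * n₂) * (6 / ε) with hy
  have hy0 : 0 ≤ y := by positivity
  set k₁ : ℕ := ⌊y⌋₊ + 1 with hk₁
  have hk₁0 : 0 < k₁ := Nat.succ_pos _
  have hk₁y : y < k₁ := by
    rw [hk₁]; push_cast
    exact Nat.lt_floor_add_one _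
  have hk₁1 : (k₁ : ℝ) ≤ y + 1 := by
    rw [hk₁]; push_cast
    have := Nat.floor_le hy0
    linarith
  set n₁ : ℕ := k₁ * q with hn₁
  obtain ⟨t₁, ht₁, hcap₁⟩ := exists_time W (P1 ΩG W) Prod.fst S.Q1 S.o1 n₁ hr
    (fun z _ => (QAlg.card_queries_le _ _).trans (hq.1 _ _)) (fun _ => none) hT0
  rw [start_none] at hcap₁
  have hmain := S.main_ineq W n₁ t₁ n₂ τ (T₁ := T) (T₂ := T) hr hq hk₁0 le_rfl hk₂0 le_rfl hτlt
    hτcap hcap₁
  have hk₂r : (0 : ℝ) < k₂ := by exact_mod_cast hk₂0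
  have hk₁r : (0 : ℝ) < k₁ := by exact_mod_cast hk₁0
  have hs2 : (2 * r * q : ℝ) / k₂ ≤ ε / 6 := by
    rw [div_le_iff₀ hk₂r]
    nlinarith
  have hs1 : (r * (q + ((T - 1 : ℕ) : ℝ) * n₂) : ℝ) / k₁ ≤ ε / 6 := by
    rw [div_le_iff₀ hk₁r]
    have h1 : r * (q + ((T - 1 : ℕ) : ℝ) * n₂) = y * (ε / 6) := by
      rw [hy]; field_simp
    rw [h1]
    nlinarith
  refine ⟨S.eve W n₁ t₁ n₂ τ, fun pk c f => ?_, ?_⟩
  · have h1 : ((S.eve W n₁ t₁ n₂ τ pk c).cost f : ℝ) ≤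
        (t₁ : ℝ) * n₁ + ((T - 1 : ℕ) : ℝ) * n₂ := by
      exact_mod_cast S.cost_eve W n₁ t₁ n₂ τ hτlt pk c f
    have ht1x : (t₁ : ℝ) ≤ x := by
      refine le_trans ?_ hT1
      exact_mod_cast Nat.le_sub_one_of_lt ht₁
    have hn₂r : (n₂ : ℝ) = k₂ * q := by rw [hn₂]; push_cast; ring
    have hn₁r : (n₁ : ℝ) = k₁ * q := by rw [hn₁]; push_cast; ring
    have hyx : y = x * (1 + ((T - 1 : ℕ) : ℝ) * k₂) := by
      rw [hy, hn₂r, hx]; ring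
    rw [hn₂r, hn₁r] at h1
    refine h1.trans ((cost_arith hx6 (by linarith) (Nat.cast_nonneg _) ht1x (Nat.cast_nonneg _)
      hT1 hk₂r.le hk₂1 (by rw [← hyx]; exact hk₁1) hk₁r.le).trans ?_)
    have h10 : x ^ 4 * q = 1296 * r ^ 4 * q ^ 5 / ε ^ 4 := by
      rw [hx, div_pow]; ring
    rw [h10]
    have h11 : 488 / 216 * (1296 * (r : ℝ) ^ 4 * q ^ 5 / ε ^ 4) =
      2928 * r ^ 4 * q ^ 5 / ε ^ 4 := by ring
    rw [h11]
    gcongr
    norm_num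
  · rw [S.advProb_eve W n₁ t₁ n₂ τ]
    linarith

end PKE

end Pool.Agent.ALG70
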