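import Pool.Agent.PKE70.Defs

/-!
# Public-key encryption relative to linear oracles

The oracle `f : D → R` is a uniformly random element of a submodule `W` of the functions `D → R`.
Oracle algorithms `QAlg` and reductions `RAlg` are defined in `Pool.Agent.PKE70.Defs`.
-/

set_option autoImplicit false

open scoped BigOperators

namespace Pool.Agent.ALG70

open Pool.Agent.PKE70

variable {K D R : Type} [Ring K] [AddCommGroup R] [Module K R] [DecidableEq D] [Fintype D]
  [Fintype R]

open Classical in
/-- the elements of `W`, as a finite set -/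
noncomputable def El (W : Submodule K (D → R)) : Finset (D → R) :=
  Finset.univ.filter fun f => f ∈ W

/-- A public-key encryption scheme for one-bit messages relative to an oracle `D → R`, with public
keys `PK`, secret keys `SK`, ciphertexts `C`, and coins `ΩG`, `ΩE`, `ΩD` of key generation,
encryption and decryption, which are oracle algorithms. -/
structure PKE (D R PK SK C ΩG ΩE ΩD : Type) where
  gen : ΩG → QAlg D R (PK × SK)
  enc : PK → Bool → ΩE → QAlg D R C
  dec : SK → C → ΩD → QAlg D R Bool

namespace PKE

variable {PK SK C ΩG ΩE ΩD : Type}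

/-- Key generation, encryption and decryption make at most `q` queries each. -/
def QueryBound (S : PKE D R PK SK C ΩG ΩE ΩD) (q : ℕ) : Prop :=
  (∀ ω f, (S.gen ω).cost f ≤ q) ∧ (∀ pk b e f, (S.enc pk b e).cost f ≤ q) ∧
    ∀ sk c d f, (S.dec sk c d).cost f ≤ q

variable [Fintype ΩG] [Fintype ΩE] [Fintype ΩD]

/-- The probability that decryption is correct, over a uniformly random oracle `f ∈ W`, a random
bit `b` and the coins. -/
noncomputable def decProb (S : PKE D R PK SK C ΩG ΩE ΩD) (W : Submodule K (D → R)) : ℝ :=
  𝔼 f ∈ El W, 𝔼 ω : ΩG, 𝔼 b : Bool, 𝔼 e : ΩE, 𝔼 d : ΩD,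
    if (S.dec ((S.gen ω).run f).2 ((S.enc ((S.gen ω).run f).1 b e).run f) d).run f = b
    then 1 else 0

/-- The probability that the adversary `A`, an oracle algorithm that is given the public key and an
encryption of a random bit `b`, finds `b`, over a uniformly random oracle `f ∈ W` and the coins. -/
noncomputable def advProb (S : PKE D R PK SK C ΩG ΩE ΩD) (W : Submodule K (D → R))
    (A : PK → C → QAlg D R Bool) : ℝ :=
  𝔼 f ∈ El W, 𝔼 ω : ΩG, 𝔼 b : Bool, 𝔼 e : ΩE,
    if (A ((S.gen ω).run f).1 ((S.enc ((S.gen ω).run f).1 b e).run f)).run f = b then 1 else 0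

end PKE

/-- `X`, embedded in `D` by `j`, is an information set of `W`: every function on it is the
restriction of an element of `W`. -/
def InfoSet {X : Type} (j : X → D) (W : Submodule K (D → R)) : Prop :=
  Function.Injective j ∧ ∀ h : X → R, ∃ f ∈ W, ∀ x, f (j x) = h x

/-- The probability that the reduction `red`, with access to the oracle `f` and to the adversary
`A`, inverts the function `x ↦ f (j x)` at a random point `x`: given `f (j x)` it finds some `z`
with `f (j z) = f (j x)`. -/
noncomputable def invProb {X PK C ΩS : Type} [Fintype X] [DecidableEq R] [Fintype ΩS]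
    (j : X → D) (red : R → ΩS → RAlg D R (PK × C) X) (f : D → R) (A : PK → C → Bool) : ℝ :=
  𝔼 x : X, 𝔼 σ : ΩS,
    if f (j ((red (f (j x)) σ).run f fun z => A z.1 z.2)) = f (j x) then 1 else 0

end Pool.Agent.ALG70
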