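import Pool.Agent.ALG70.Lin
import Pool.Agent.ALG70.Defs

/-!
# Averages over submodules of oracles: resampling and independence
-/

set_option autoImplicit false
set_option linter.unusedSectionVars false

open scoped BigOperators

namespace Pool.Agent.ALG70

open Pool.Agent.PKE70

variable {K D R : Type} [Ring K] [AddCommGroup R] [Module K R]
variable [DecidableEq D] [Fintype D] [Fintype R]

theorem mem_El {W : Submodule K (D → R)} {w : D → R} : w ∈ El W ↔ w ∈ W := by
  simp [El]

theorem El_nonempty (W : Submodule K (D → R)) : (El W).Nonempty := ⟨0, mem_El.mpr W.zero_mem⟩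

/-- translation invariance -/
theorem expect_add_right {W : Submodule K (D → R)} {g : D → R} (hg : g ∈ W) (F : (D → R) → ℝ) :
    𝔼 w ∈ El W, F (w + g) = 𝔼 w ∈ El W, F w :=
  Finset.expect_nbij' (fun w => w + g) (fun w => w - g)
    (fun _ hw => mem_El.mpr (W.add_mem (mem_El.mp hw) hg))
    (fun _ hw => mem_El.mpr (W.sub_mem (mem_El.mp hw) hg))
    (fun _ _ => add_sub_cancel_right _ _) (fun _ _ => sub_add_cancel _ _) (fun _ _ => rfl)

/-- averaging in two steps -/
theorem tower {W W' : Submodule K (D → R)} (h : W' ≤ W) (F : (D → R) → ℝ) :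
    𝔼 w ∈ El W, F w = 𝔼 w ∈ El W, 𝔼 u ∈ El W', F (w + u) := by
  rw [Finset.expect_comm]
  have h1 : ∀ u ∈ El W', 𝔼 w ∈ El W, F (w + u) = 𝔼 w ∈ El W, F w := fun u hu =>
    expect_add_right (h (mem_El.mp hu)) F
  rw [Finset.expect_congr rfl h1, Finset.expect_const (El_nonempty W')]

/-- Resampling: the answers on a set `A f` of points, determined by these answers, are exposed; the
oracle may be replaced by a random one with the same answers on this set. -/
theorem resample (W : Submodule K (D → R)) (f₀ : D → R) (A : (D → R) → Finset D)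
    (hA : ∀ f f', (∀ x ∈ A f, f' x = f x) → A f' = A f) (F : (D → R) → (D → R) → ℝ)
    (hF : ∀ f f' h, (∀ x ∈ A f, f' x = f x) → F f' h = F f h) :
    𝔼 w ∈ El W, F (f₀ + w) (f₀ + w) =
      𝔼 w ∈ El W, 𝔼 u ∈ El (van W (A (f₀ + w))), F (f₀ + w) (f₀ + w + u) := by
  classical
  have hagree : ∀ w u : D → R, u ∈ van W (A (f₀ + w)) →
      ∀ x ∈ A (f₀ + w), (f₀ + (w + u)) x = (f₀ + w) x := by
    intro w u hu x hx
    simp [hu.2 x hx]
  have hA2 : ∀ w u : D → R, u ∈ van W (A (f₀ + w)) → A (f₀ + (w + u)) = A (f₀ + w) :=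
    fun w u hu => hA _ _ (hagree w u hu)
  set V : (D → R) → Finset (D → R) := fun w => El (van W (A (f₀ + w))) with hV
  have hVne : ∀ w, ((V w).card : ℝ) ≠ 0 := fun w => by
    exact_mod_cast (El_nonempty _).card_pos.ne'
  have key : ∑ w ∈ El W, ∑ u ∈ V w, F (f₀ + w) (f₀ + w + u) / (V w).card =
      ∑ w ∈ El W, ∑ u ∈ V w, F (f₀ + w) (f₀ + w) / (V w).card := by
    rw [Finset.sum_sigma', Finset.sum_sigma']
    refine Finset.sum_bij' (fun p _ => ⟨p.1 + p.2, -p.2⟩) (fun p _ => ⟨p.1 + p.2, -p.2⟩)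
      ?_ ?_ ?_ ?_ ?_
    · rintro ⟨w, u⟩ hp
      simp only [Finset.mem_sigma, hV, mem_El] at hp ⊢
      refine ⟨W.add_mem hp.1 hp.2.1, ?_⟩
      rw [hA2 w u hp.2]
      exact (van W _).neg_mem hp.2
    · rintro ⟨w, u⟩ hp
      simp only [Finset.mem_sigma, hV, mem_El] at hp ⊢
      refine ⟨W.add_mem hp.1 hp.2.1, ?_⟩
      rw [hA2 w u hp.2]
      exact (van W _).neg_mem hp.2
    · rintro ⟨w, u⟩ hp
      simp
    · rintro ⟨w, u⟩ hp
      simp
    · rintro ⟨w, u⟩ hp
      simp only [Finset.mem_sigma, hV, mem_El] at hp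
      simp only [hV]
      rw [hA2 w u hp.2, ← hF (f₀ + w) (f₀ + (w + u)) _ (hagree w u hp.2), add_assoc]
  have h1 : ∀ w, ∑ u ∈ V w, F (f₀ + w) (f₀ + w) / (V w).card = F (f₀ + w) (f₀ + w) := by
    intro w
    rw [Finset.sum_const, nsmul_eq_mul, mul_div_cancel₀ _ (hVne w)]
  have h2 : ∀ w, ∑ u ∈ V w, F (f₀ + w) (f₀ + w + u) / (V w).card =
      𝔼 u ∈ V w, F (f₀ + w) (f₀ + w + u) := by
    intro w
    rw [Finset.expect_eq_sum_div_card, Finset.sum_div]
  simp only [h1, h2] at key
  rw [Finset.expect_eq_sum_div_card, Finset.expect_eq_sum_div_card, key]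

/-- Independence: a function local to a set of points whose answers are independent of those at
`G` has the same average over the oracles with prescribed answers at `G`. -/
theorem ind_avg (W : Submodule K (D → R)) (G : Finset D) (f₀ : D → R) (E : (D → R) → Finset D)
    (Φ : (D → R) → ℝ) (hloc : ∀ f f', (∀ x ∈ E f, f' x = f x) → E f' = E f ∧ Φ f' = Φ f)
    (hsupp : ∀ f, Φ f ≠ 0 → Ind W (E f) G) :
    𝔼 w ∈ El W, Φ (f₀ + w) = 𝔼 w ∈ El (van W G), Φ (f₀ + w) := by
  classical
  rw [tower (van_le W G)]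
  have key : ∀ γ ∈ El W, 𝔼 u ∈ El (van W G), Φ (f₀ + (γ + u)) =
      𝔼 u ∈ El (van W G), Φ (f₀ + u) := by
    intro γ hγ
    rw [mem_El] at hγ
    have hdec : ∀ B : Finset D, Ind W B G → ∃ b, b ∈ van W G ∧ γ - b ∈ van W B := by
      intro B hB
      obtain ⟨a, ha, b, hb, hab⟩ := Submodule.mem_sup.mp (hB hγ)
      refine ⟨b, hb, ?_⟩
      rw [← hab, add_sub_cancel_right]
      exact ha
    let pr : Finset D → (D → R) := fun B =>
      if h : ∃ b, b ∈ van W G ∧ γ - b ∈ van W B then Classical.choose h else 0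
    have hpr : ∀ B : Finset D, Ind W B G → pr B ∈ van W G ∧ γ - pr B ∈ van W B := by
      intro B hB
      have h := hdec B hB
      simp only [pr, dif_pos h]
      exact Classical.choose_spec h
    have hshift : ∀ (B : Finset D) (s : D → R), Ind W B G →
        ∀ x ∈ B, (f₀ + (γ + (s - pr B))) x = (f₀ + s) x := by
      intro B s hB x hx
      have h1 := (hpr B hB).2.2 x hx
      simp only [Pi.sub_apply] at h1
      simp only [Pi.add_apply, Pi.sub_apply]
      have h2 : γ x = pr B x := sub_eq_zero.mp h1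
      rw [h2]
      abel
    have hsum : ∑ u ∈ El (van W G), Φ (f₀ + u) = ∑ u ∈ El (van W G), Φ (f₀ + (γ + u)) := by
      refine Finset.sum_bij_ne_zero (fun s _ _ => s - pr (E (f₀ + s))) ?_ ?_ ?_ ?_
      · intro s hs hs0
        rw [mem_El] at hs ⊢
        exact (van W G).sub_mem hs (hpr _ (hsupp _ hs0)).1
      · intro s₁ hs₁ h₁ s₂ hs₂ h₂ heq
        have e1 := (hloc (f₀ + s₁) _ (hshift _ s₁ (hsupp _ h₁))).1
        have e2 := (hloc (f₀ + s₂) _ (hshift _ s₂ (hsupp _ h₂))).1
        have e3 : E (f₀ + s₁) = E (f₀ + s₂) := by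
          rw [← e1, ← e2]
          simp only [heq]
        have e4 : s₁ - pr (E (f₀ + s₁)) = s₂ - pr (E (f₀ + s₂)) := heq
        rw [e3] at e4
        exact sub_left_injective e4
      · intro t ht ht0
        have hB := hsupp _ ht0
        set B := E (f₀ + (γ + t)) with hBdef
        have hpB := hpr B hB
        have hval : ∀ x ∈ B, (f₀ + (t + pr B)) x = (f₀ + (γ + t)) x := by
          intro x hx
          have h3 := hpB.2.2 x hx
          simp only [Pi.sub_apply] at h3
          have h4 : γ x = pr B x := sub_eq_zero.mp h3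
          simp only [Pi.add_apply]
          rw [h4]
          abel
        obtain ⟨h5, h6⟩ := hloc (f₀ + (γ + t)) _ hval
        refine ⟨t + pr B, ?_, ?_, ?_⟩
        · rw [mem_El] at ht ⊢
          exact (van W G).add_mem ht hpB.1
        · rw [h6]; exact ht0
        · rw [h5, ← hBdef, add_sub_cancel_right]
      · intro s hs hs0
        exact (hloc (f₀ + s) _ (hshift _ s (hsupp _ hs0))).2.symm
    rw [Finset.expect_eq_sum_div_card, Finset.expect_eq_sum_div_card, hsum]
  rw [Finset.expect_congr rfl key, Finset.expect_const (El_nonempty W)]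

/-- averaging over the cells of a partition -/
theorem expect_cells {Z V : Type} [DecidableEq V] (P : Finset Z) (view : Z → V) (F : Z → ℝ) :
    𝔼 z ∈ P, F z = 𝔼 z ∈ P, 𝔼 z' ∈ P.filter (fun z' => view z' = view z), F z' := by
  classical
  rw [Finset.expect_eq_sum_div_card, Finset.expect_eq_sum_div_card]
  congr 1
  have h1 : ∀ z, 𝔼 z' ∈ P.filter (fun z' => view z' = view z), F z' =
      ∑ z' ∈ P, (if view z' = view z then
        F z' / (P.filter (fun z'' => view z'' = view z')).card else 0) := by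
    intro z
    rw [Finset.expect_eq_sum_div_card, Finset.sum_div, Finset.sum_filter]
    refine Finset.sum_congr rfl fun z' _ => ?_
    split_ifs with h
    · rw [h]
    · rfl
  simp only [h1]
  rw [Finset.sum_comm]
  refine Finset.sum_congr rfl fun z' hz' => ?_
  rw [← Finset.sum_filter, Finset.sum_const, nsmul_eq_mul]
  have h2 : (P.filter fun a => view z' = view a) = P.filter fun z'' => view z'' = view z' := by
    refine Finset.filter_congr fun a _ => ?_
    exact eq_comm
  rw [h2]
  have h3 : ((P.filter fun z'' => view z'' = view z').card : ℝ) ≠ 0 := by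
    have : (P.filter fun z'' => view z'' = view z').Nonempty :=
      ⟨z', Finset.mem_filter.mpr ⟨hz', rfl⟩⟩
    exact_mod_cast this.card_pos.ne'
  rw [mul_div_cancel₀ _ h3]

end Pool.Agent.ALG70
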