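import Pool.Agent.ALG70.Inv

/-!
# No black-box reduction
-/

set_option autoImplicit false
set_option linter.unusedSectionVars false

open scoped BigOperators

namespace Pool.Agent.ALG70

open Pool.Agent.PKE70

variable {K D R X PK C ΩS : Type} [Ring K] [AddCommGroup R] [Module K R]
variable [DecidableEq D] [Fintype D] [Fintype R] [DecidableEq R] [Fintype X] [Fintype ΩS]

theorem invProb_toQ {W : Submodule K (D → R)} {j : X → D}
    (red : R → ΩS → RAlg D R (PK × C) X) (A : PK → C → QAlg D R Bool) :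
    𝔼 f ∈ El W, ALG70.invProb j red f (fun pk c => (A pk c).run f) =
      𝔼 σ : ΩS, 𝔼 f ∈ El W, 𝔼 x : X,
        ind (f (j (((red (f (j x)) σ).toQ fun z => A z.1 z.2).run f)) = f (j x)) := by
  rw [Finset.expect_comm]
  refine Finset.expect_congr rfl fun f _ => ?_
  rw [ALG70.invProb, Finset.expect_comm]
  refine Finset.expect_congr rfl fun σ _ => Finset.expect_congr rfl fun x _ => ?_
  rw [ind_eq, RAlg.run_toQ]

theorem cost_toQ' (red : R → ΩS → RAlg D R (PK × C) X) {t Q : ℕ}
    (hred : ∀ y σ f B, (red y σ).cost f B ≤ t) (A : PK → C → QAlg D R Bool)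
    (hA : ∀ pk c f, (A pk c).cost f ≤ Q) (σ : ΩS) (y : R) (f : D → R) :
    ((red y σ).toQ fun z => A z.1 z.2).cost f ≤ t * (Q + 1) := by
  have h2 := RAlg.cost_toQ (fun z : PK × C => A z.1 z.2) (fun z f => hA z.1 z.2 f) f (red y σ)
  have h3 := Nat.mul_le_mul_right (Q + 1) (hred y σ f fun z => (A z.1 z.2).run f)
  exact h2.trans h3

theorem inversion' {W : Submodule K (D → R)} {j : X → D} (hj : InfoSet j W) {r : ℕ}
    (hr : Module.length K R ≤ r) (T : R → QAlg D R X) (n : ℕ)
    (hcost : ∀ y f, (T y).cost f ≤ n) (c : ℝ)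
    (hc : (r * ((n : ℝ) + 1) + 1) * (1 / (Fintype.card X : ℝ) + 1 / Fintype.card R) = c) :
    𝔼 f ∈ El W, 𝔼 x : X, ind (f (j ((T (f (j x))).run f)) = f (j x)) ≤ c := by
  rw [← hc]
  exact inversion hj hr T hcost

/-- the reduction together with the adversary is an inversion algorithm -/
theorem expect_invProb_le {W : Submodule K (D → R)} {j : X → D} (hj : InfoSet j W) {r : ℕ}
    (hr : Module.length K R ≤ r) (red : R → ΩS → RAlg D R (PK × C) X) {t Q : ℕ}
    (hred : ∀ y σ f B, (red y σ).cost f B ≤ t) (A : PK → C → QAlg D R Bool)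
    (hA : ∀ pk c f, (A pk c).cost f ≤ Q) {c : ℝ}
    (hc : (r * (((t * (Q + 1) : ℕ) : ℝ) + 1) + 1) *
      (1 / (Fintype.card X : ℝ) + 1 / Fintype.card R) = c) :
    𝔼 f ∈ El W, ALG70.invProb j red f (fun pk c => (A pk c).run f) ≤ c := by
  have hc0 : 0 ≤ c := by rw [← hc]; positivity
  rw [invProb_toQ]
  refine expect_mem_le_of_le hc0 fun σ _ => ?_
  exact inversion' hj hr (fun y => (red y σ).toQ fun z => A z.1 z.2) (t * (Q + 1))
    (fun y f => cost_toQ' red hred A hA σ y f) c hc

end Pool.Agent.ALG70
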