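import Pool.Agent.ALG70.Attack
import Pool.Agent.PKE70.Inversion

/-!
# The restriction of a random linear oracle to an information set is one-way
-/

set_option autoImplicit false
set_option linter.unusedSectionVars false

open scoped BigOperators

namespace Pool.Agent.ALG70

open Pool.Agent.PKE70

variable {K D R X : Type} [Ring K] [AddCommGroup R] [Module K R]
variable [DecidableEq D] [Fintype D] [Fintype R] [Fintype X]

/-- translation invariance on the left -/
theorem expect_add_left {W : Submodule K (D → R)} {g : D → R} (hg : g ∈ W) (F : (D → R) → ℝ) :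
    𝔼 w ∈ El W, F (g + w) = 𝔼 w ∈ El W, F w := by
  rw [← expect_add_right hg F]
  refine Finset.expect_congr rfl fun w _ => ?_
  rw [add_comm]

theorem expect_mem_le_of_le {Z : Type} {P : Finset Z} {F : Z → ℝ} {c : ℝ} (hc : 0 ≤ c)
    (h : ∀ z ∈ P, F z ≤ c) : 𝔼 z ∈ P, F z ≤ c := by
  rcases P.eq_empty_or_nonempty with rfl | hP
  · simpa using hc
  · exact Finset.expect_le hP h

variable {W : Submodule K (D → R)} {j : X → D}

theorem infoSet_ind (hj : InfoSet j W) (Y : Finset X) {x : X} (hx : x ∉ Y) :
    Ind W (Y.image j) {j x} := by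
  classical
  intro w hw
  obtain ⟨u, hu, hux⟩ := hj.2 fun y => if y = x then w (j x) else 0
  have h1 : u ∈ van W (Y.image j) := by
    refine ⟨hu, fun z hz => ?_⟩
    obtain ⟨y, hy, rfl⟩ := Finset.mem_image.mp hz
    rw [hux, if_neg]
    rintro rfl
    exact hx hy
  have h2 : w - u ∈ van W {j x} := by
    refine ⟨W.sub_mem hw hu, fun z hz => ?_⟩
    rw [Finset.mem_singleton.mp hz, Pi.sub_apply, hux, if_pos rfl, sub_self]
  have h3 : w = u + (w - u) := by abel
  rw [h3]
  exact Submodule.add_mem_sup h1 h2

/-- few points of an information set are touched by the answers at `A` -/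
theorem sum_mi_le (hj : InfoSet j W) (A : Finset D) (Y : Finset X) :
    ∑ x ∈ Y, mi W A {j x} ≤ mi W A (Y.image j) := by
  classical
  induction Y using Finset.induction_on with
  | empty =>
    simp only [Finset.sum_empty, Finset.image_empty]
    exact mi_nonneg _ _ _
  | insert x Y hx ih =>
    rw [Finset.sum_insert hx, Finset.image_insert, Finset.insert_eq, Finset.union_comm,
      mi_union]
    have h1 : mi W A {j x} ≤ mi (van W (Y.image j)) A {j x} := by
      have h2 := mi_union W {j x} A (Y.image j)
      have h3 : mi W {j x} (Y.image j) = 0 := by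
        rw [mi_comm]; exact mi_eq_zero (infoSet_ind hj Y hx)
      have h4 := mi_le_union W {j x} A (Y.image j)
      rw [h2, h3, zero_add] at h4
      rw [mi_comm, mi_comm (van W (Y.image j))]
      exact h4
    linarith

theorem sum_mi_le_card (hj : InfoSet j W) (A : Finset D) {r : ℕ}
    (hr : Module.length K R ≤ r) : ∑ x : X, mi W A {j x} ≤ r * A.card := by
  refine (sum_mi_le hj A Finset.univ).trans ?_
  rw [mi_comm]
  exact (mi_le_hh _ _ _).trans (hh_le W A hr)

/-- the probability of the value `y` at `j x` -/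
noncomputable def pr (W : Submodule K (D → R)) (j : X → D) (y : R) (A : Finset D) (f₀ : D → R)
    (x : X) : ℝ := 𝔼 w ∈ El (van W A), ind ((f₀ + w) (j x) = y)

theorem pr_nonneg (y : R) (A : Finset D) (f₀ : D → R) (x : X) : 0 ≤ pr W j y A f₀ x :=
  Finset.expect_nonneg fun _ _ => ind_nonneg _

theorem pr_empty (hj : InfoSet j W) (y : R) (f₀ : D → R) (x : X) :
    pr W j y ∅ f₀ x = 1 / Fintype.card R := by
  classical
  rw [pr, van_empty]
  set p : R → ℝ := fun a => 𝔼 w ∈ El W, ind (w (j x) = a) with hp
  have h1 : ∀ a, p a = p 0 := by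
    intro a
    obtain ⟨u, hu, hux⟩ := hj.2 fun _ => a
    simp only [hp]
    rw [← expect_add_left hu]
    refine Finset.expect_congr rfl fun w _ => ?_
    rw [Pi.add_apply, hux x]
    by_cases h : w (j x) = 0
    · rw [ind_true h, ind_true (by rw [h, add_zero])]
    · rw [ind_false h, ind_false fun h' => h (by simpa using h')]
  have h2 : ∑ a : R, p a = 1 := by
    simp only [hp]
    rw [← Finset.expect_sum_comm]
    have h3 : ∀ w : D → R, ∑ a : R, ind (w (j x) = a) = 1 := by
      intro w
      simp only [ind_eq]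
      rw [Finset.sum_ite_eq]
      simp
    simp only [h3]
    exact Finset.expect_const (El_nonempty W) 1
  have h4 : ∀ a, p a = 1 / Fintype.card R := by
    intro a
    have h5 : ∑ a : R, p a = Fintype.card R * p a := by
      rw [Finset.sum_congr rfl fun b _ => (h1 b).trans (h1 a).symm, Finset.sum_const,
        Finset.card_univ, nsmul_eq_mul]
    have h6 : (0 : ℝ) < Fintype.card R := by exact_mod_cast Fintype.card_pos
    rw [h2] at h5
    field_simp
    linarith
  rw [← h4 (y - f₀ (j x))]
  simp only [hp]
  refine Finset.expect_congr rfl fun w _ => ?_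
  by_cases h : w (j x) = y - f₀ (j x)
  · rw [ind_true h, ind_true (by rw [Pi.add_apply, h]; abel)]
  · rw [ind_false h, ind_false fun h' => h (by rw [← h', Pi.add_apply]; abel)]

/-- an untouched value is uniformly distributed -/
theorem pr_of_ind (hj : InfoSet j W) (y : R) {A : Finset D} (f₀ : D → R) {x : X}
    (h : Ind W A {j x}) : pr W j y A f₀ x = 1 / Fintype.card R := by
  rw [← pr_empty hj y f₀ x, pr, pr, van_empty]
  exact (ind_avg W A f₀ (fun _ => {j x}) (fun f => ind (f (j x) = y))
    (fun f f' hf => ⟨rfl, by rw [hf (j x) (by simp)]⟩)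
    (fun f _ => by rw [Ind, sup_comm]; exact h)).symm

/-- the martingale -/
theorem pr_tower (y : R) (A B : Finset D) (f₀ : D → R) (x : X) :
    pr W j y A f₀ x = 𝔼 w ∈ El (van W A), pr W j y (A ∪ B) (f₀ + w) x := by
  simp only [pr]
  rw [← van_van, tower (van_le (van W A) B)]
  refine Finset.expect_congr rfl fun w _ => Finset.expect_congr rfl fun u _ => ?_
  rw [add_assoc]

noncomputable def mart (W : Submodule K (D → R)) (j : X → D) (y : R) (A : Finset D)
    (f₀ : D → R) : ℝ := ∑ x : X, (pr W j y A f₀ x - 1 / Fintype.card R)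

theorem pr_le (hj : InfoSet j W) {r : ℕ} (hr : Module.length K R ≤ r) (y : R) (A : Finset D)
    (f₀ : D → R) (x : X) :
    pr W j y A f₀ x ≤ mart W j y A f₀ + (r * A.card + 1) / Fintype.card R := by
  classical
  have hR : (0 : ℝ) < Fintype.card R := by exact_mod_cast Fintype.card_pos
  have h1 : ∀ z : X, -(mi W A {j z}) * (1 / Fintype.card R) ≤
      pr W j y A f₀ z - 1 / Fintype.card R := by
    intro z
    by_cases h : Ind W A {j z}
    · rw [pr_of_ind hj y f₀ h, mi_eq_zero h]; simp
    · have h2 := one_le_mi h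
      have h3 := pr_nonneg (W := W) (j := j) y A f₀ z
      have h4 : 1 * (1 / (Fintype.card R : ℝ)) ≤ mi W A {j z} * (1 / Fintype.card R) :=
        mul_le_mul_of_nonneg_right h2 (by positivity)
      linarith
  have h2 : pr W j y A f₀ x - 1 / Fintype.card R - mart W j y A f₀ ≤
      ∑ z : X, mi W A {j z} * (1 / Fintype.card R) := by
    rw [mart, ← Finset.add_sum_erase Finset.univ _ (Finset.mem_univ x),
      ← Finset.add_sum_erase Finset.univ (fun z => mi W A {j z} * (1 / (Fintype.card R : ℝ)))
        (Finset.mem_univ x)]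
    have h3 : ∑ z ∈ Finset.univ.erase x, -(mi W A {j z}) * (1 / (Fintype.card R : ℝ)) ≤
        ∑ z ∈ Finset.univ.erase x, (pr W j y A f₀ z - 1 / Fintype.card R) :=
      Finset.sum_le_sum fun z _ => h1 z
    simp only [neg_mul, Finset.sum_neg_distrib] at h3
    have h4 : 0 ≤ mi W A {j x} * (1 / (Fintype.card R : ℝ)) :=
      mul_nonneg (mi_nonneg _ _ _) (by positivity)
    linarith
  rw [← Finset.sum_mul] at h2
  have h3 : (∑ z : X, mi W A {j z}) * (1 / (Fintype.card R : ℝ)) ≤
      (r * A.card) * (1 / Fintype.card R) :=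
    mul_le_mul_of_nonneg_right (sum_mi_le_card hj A hr) (by positivity)
  have h4 : ((r : ℝ) * A.card + 1) / Fintype.card R =
      (r * A.card) * (1 / Fintype.card R) + 1 / Fintype.card R := by ring
  rw [h4]
  linarith

/-- finding a preimage of a fixed value by luck -/
theorem luck (hj : InfoSet j W) {r : ℕ} (hr : Module.length K R ≤ r) (y : R)
    (T : QAlg D R X) (n : ℕ) (A : Finset D) (f₀ : D → R)
    (hT : ∀ w ∈ van W A, T.cost (f₀ + w) ≤ n) :
    𝔼 w ∈ El (van W A), ind ((f₀ + w) (j (T.run (f₀ + w))) = y) ≤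
      mart W j y A f₀ + (r * (A.card + n) + 1) / Fintype.card R := by
  have hR : (0 : ℝ) < Fintype.card R := by exact_mod_cast Fintype.card_pos
  induction T generalizing n A f₀ with
  | ret x =>
    have h1 := pr_le hj hr y A f₀ x
    have h2 : ((r : ℝ) * A.card + 1) / Fintype.card R ≤
        (r * (A.card + n) + 1) / Fintype.card R := by
      rw [div_le_div_iff_of_pos_right hR]
      have : (0 : ℝ) ≤ r * n := by positivity
      linarith
    exact h1.trans (by linarith)
  | ask x₀ k ih =>
    have hn : 1 ≤ n := by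
      have := hT 0 (van W A).zero_mem
      rw [QAlg.cost_ask] at this
      omega
    rw [tower (van_le (van W A) {x₀})]
    have h1 : ∀ w ∈ El (van W A), 𝔼 u ∈ El (van (van W A) {x₀}),
        ind ((f₀ + (w + u)) (j ((QAlg.ask x₀ k).run (f₀ + (w + u)))) = y) ≤
        mart W j y (A ∪ {x₀}) (f₀ + w) + (r * (A.card + n) + 1) / Fintype.card R := by
      intro w hw
      have h2 : ∀ u ∈ El (van (van W A) {x₀}),
          ind ((f₀ + (w + u)) (j ((QAlg.ask x₀ k).run (f₀ + (w + u)))) = y) =
          ind ((f₀ + w + u) (j ((k ((f₀ + w) x₀)).run (f₀ + w + u))) = y) := by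
        intro u hu
        have h3 : u x₀ = 0 := (mem_El.mp hu).2 x₀ (by simp)
        have h4 : (f₀ + w + u) x₀ = (f₀ + w) x₀ := by simp [h3]
        rw [← add_assoc, QAlg.run_ask, h4]
      rw [Finset.expect_congr rfl h2]
      have h5 : ∀ u ∈ van W (A ∪ {x₀}), (k ((f₀ + w) x₀)).cost (f₀ + w + u) ≤ n - 1 := by
        intro u hu
        rw [← van_van] at hu
        have h3 : u x₀ = 0 := hu.2 x₀ (by simp)
        have h4 : (f₀ + w + u) x₀ = (f₀ + w) x₀ := by simp [h3]
        have h6 := hT (w + u) ((van W A).add_mem (mem_El.mp hw) hu.1)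
        rw [← add_assoc, QAlg.cost_ask, h4] at h6
        omega
      have h6 := ih ((f₀ + w) x₀) (n - 1) (A ∪ {x₀}) (f₀ + w) h5
      rw [← van_van] at h6
      refine h6.trans ?_
      have h7 : ((A ∪ {x₀}).card : ℝ) ≤ A.card + 1 := by
        have h8 := Finset.card_union_le A {x₀}
        rw [Finset.card_singleton] at h8
        exact_mod_cast h8
      have h9 : ((n - 1 : ℕ) : ℝ) = n - 1 := by
        rw [Nat.cast_sub hn, Nat.cast_one]
      have h10 : (r : ℝ) * ((A ∪ {x₀}).card + ((n - 1 : ℕ) : ℝ)) + 1 ≤ r * (A.card + n) + 1 := by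
        rw [h9]
        have : ((A ∪ {x₀}).card : ℝ) + (n - 1) ≤ A.card + n := by linarith
        nlinarith [mul_le_mul_of_nonneg_left this (Nat.cast_nonneg (α := ℝ) r)]
      have h11 : ((r : ℝ) * ((A ∪ {x₀}).card + ((n - 1 : ℕ) : ℝ)) + 1) / Fintype.card R ≤
          (r * (A.card + n) + 1) / Fintype.card R := by
        rw [div_le_div_iff_of_pos_right hR]; exact h10
      linarith
    refine (Finset.expect_le_expect fun w hw => h1 w hw).trans ?_
    rw [Finset.expect_add_distrib, Finset.expect_const (El_nonempty _)]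
    refine add_le_add (le_of_eq ?_) le_rfl
    simp only [mart]
    rw [Finset.expect_sum_comm]
    refine Finset.sum_congr rfl fun x _ => ?_
    rw [Finset.expect_sub_distrib, Finset.expect_const (El_nonempty _), ← pr_tower]

/-- the oracle is determined by its value at `j x` and a random element vanishing there -/
theorem expect_value (hj : InfoSet j W) (x : X) (F : R → (D → R) → ℝ) :
    𝔼 f ∈ El W, F (f (j x)) f = 𝔼 y : R, 𝔼 w ∈ El (van W {j x}),
      F y (Classical.choose (hj.2 fun _ => y) + w) := by
  classical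
  set u : R → D → R := fun y => Classical.choose (hj.2 fun _ => y) with hu
  have hu1 : ∀ y, u y ∈ W := fun y => (Classical.choose_spec (hj.2 fun _ => y)).1
  have hu2 : ∀ y, u y (j x) = y := fun y => (Classical.choose_spec (hj.2 fun _ => y)).2 x
  rw [← Finset.expect_product' (s := Finset.univ) (t := El (van W {j x}))
    (f := fun y w => F y (u y + w))]
  symm
  refine Finset.expect_nbij' (fun p => u p.1 + p.2) (fun f => (f (j x), f - u (f (j x))))
    ?_ ?_ ?_ ?_ ?_
  · rintro ⟨y, w⟩ h
    rw [Finset.mem_product, mem_El] at h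
    rw [mem_El]
    exact W.add_mem (hu1 y) h.2.1
  · intro f hf
    rw [mem_El] at hf
    rw [Finset.mem_product, mem_El]
    refine ⟨Finset.mem_univ _, W.sub_mem hf (hu1 _), fun z hz => ?_⟩
    rw [Finset.mem_singleton.mp hz]
    show f (j x) - u (f (j x)) (j x) = 0
    rw [hu2, sub_self]
  · rintro ⟨y, w⟩ h
    rw [Finset.mem_product, mem_El] at h
    have h1 : w (j x) = 0 := h.2.2 (j x) (by simp)
    have h2 : (u y + w) (j x) = y := by rw [Pi.add_apply, hu2, h1, add_zero]
    simp only [h2]
    rw [add_sub_cancel_left]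
  · intro f _
    exact add_sub_cancel _ _
  · rintro ⟨y, w⟩ h
    rw [Finset.mem_product, mem_El] at h
    have h1 : w (j x) = 0 := h.2.2 (j x) (by simp)
    have h2 : (u y + w) (j x) = y := by rw [Pi.add_apply, hu2, h1, add_zero]
    simp only [h2]

/-- **The restriction of a random linear oracle to an information set is hard to invert.** -/
theorem inversion (hj : InfoSet j W) {r : ℕ} (hr : Module.length K R ≤ r)
    (T : R → QAlg D R X) {n : ℕ} (hT : ∀ y f, (T y).cost f ≤ n) :
    𝔼 f ∈ El W, 𝔼 x : X, ind (f (j ((T (f (j x))).run f)) = f (j x)) ≤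
      (r * (n + 1) + 1) * (1 / (Fintype.card X : ℝ) + 1 / Fintype.card R) := by
  classical
  have hR : (0 : ℝ) < Fintype.card R := by exact_mod_cast Fintype.card_pos
  rcases isEmpty_or_nonempty X with hX | hX
  · simp only [Finset.univ_eq_empty, Finset.expect_empty]
    rw [Finset.expect_const (El_nonempty W)]
    positivity
  have hXr : (0 : ℝ) < Fintype.card X := by exact_mod_cast Fintype.card_pos
  -- the algorithm that checks its output
  set T' : R → QAlg D R Bool := fun y => (T y).bind fun z => .ask (j z) fun a =>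
    .ret (decide (a = y)) with hT'
  have hrun : ∀ y f, (T' y).run f = decide (f (j ((T y).run f)) = y) := by
    intro y f
    simp only [hT', QAlg.run_bind, QAlg.run_ask, QAlg.run_ret]
  have hk : ∀ y f, ind ((T' y).run f = true) = ind (f (j ((T y).run f)) = y) := by
    intro y f
    rw [hrun]
    by_cases h : f (j ((T y).run f)) = y
    · rw [ind_true h, ind_true (by simpa using h)]
    · rw [ind_false h, ind_false (by simpa using h)]
  have hcost : ∀ y f, ((T' y).queries f).card ≤ n + 1 := by
    intro y f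
    refine (QAlg.card_queries_le f (T' y)).trans ?_
    simp only [hT', QAlg.cost_bind, QAlg.cost_ask, QAlg.cost_ret]
    have := hT y f
    omega
  rw [Finset.expect_comm]
  have h1 : ∀ x : X, 𝔼 f ∈ El W, ind (f (j ((T (f (j x))).run f)) = f (j x)) ≤
      𝔼 y : R, 𝔼 w ∈ El W, ind (w (j ((T y).run w)) = y) +
      𝔼 y : R, 𝔼 w ∈ El W, mi W ((T' y).queries w) {j x} := by
    intro x
    rw [expect_value hj x fun y f => ind (f (j ((T y).run f)) = y), ← Finset.expect_add_distrib]
    refine Finset.expect_le_expect fun y _ => ?_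
    have hu := (Classical.choose_spec (hj.2 fun _ => y)).1
    set u := Classical.choose (hj.2 fun _ => y) with hudef
    have h2 := real_le_ideal W {j x} u (T' y).queries (fun f => ind ((T' y).run f = true))
      (fun _ => ind_nonneg _) (fun _ => ind_le_one _)
      (fun f f' hf => by
        obtain ⟨h3, h4⟩ := QAlg.local_run (T' y) hf
        exact ⟨h4, by rw [h3]⟩)
    simp only [hk] at h2
    rw [expect_add_left hu (fun f => ind (f (j ((T y).run f)) = y)),
      expect_add_left hu (fun f => 1 - ind (Ind W ((T' y).queries f) {j x}))] at h2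
    refine h2.trans (add_le_add le_rfl ?_)
    exact Finset.expect_le_expect fun w _ => one_sub_ind_le_mi _ _ _
  have h5 : 𝔼 y : R, 𝔼 w ∈ El W, ind (w (j ((T y).run w)) = y) ≤
      (r * n + 1) / Fintype.card R := by
    refine expect_mem_le_of_le ?_ fun y _ => ?_
    · positivity
    · have h6 := luck hj hr y (T y) n ∅ 0 fun w _ => hT y _
      have h7 : mart W j y ∅ 0 = 0 := by
        rw [mart]
        refine Finset.sum_eq_zero fun x _ => ?_
        rw [pr_empty hj, sub_self]
      rw [h7, van_empty] at h6
      simpa using h6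
  have h8 : 𝔼 x : X, 𝔼 y : R, 𝔼 w ∈ El W, mi W ((T' y).queries w) {j x} ≤
      r * (n + 1) / Fintype.card X := by
    rw [Finset.expect_comm]
    refine expect_mem_le_of_le (by positivity) fun y _ => ?_
    rw [Finset.expect_comm]
    refine expect_mem_le_of_le (by positivity) fun w _ => ?_
    rw [Fintype.expect_eq_sum_div_card, div_le_div_iff_of_pos_right hXr]
    refine (sum_mi_le_card hj _ hr).trans ?_
    have : (((T' y).queries w).card : ℝ) ≤ n + 1 := by exact_mod_cast hcost y w
    gcongr
  calc 𝔼 x : X, 𝔼 f ∈ El W, ind (f (j ((T (f (j x))).run f)) = f (j x))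
      ≤ 𝔼 x : X, (𝔼 y : R, 𝔼 w ∈ El W, ind (w (j ((T y).run w)) = y) +
        𝔼 y : R, 𝔼 w ∈ El W, mi W ((T' y).queries w) {j x}) :=
        Finset.expect_le_expect fun x _ => h1 x
    _ = 𝔼 y : R, 𝔼 w ∈ El W, ind (w (j ((T y).run w)) = y) +
        𝔼 x : X, 𝔼 y : R, 𝔼 w ∈ El W, mi W ((T' y).queries w) {j x} := by
        rw [Finset.expect_add_distrib, Fintype.expect_const]
    _ ≤ (r * n + 1) / Fintype.card R + r * (n + 1) / Fintype.card X := add_le_add h5 h8
    _ ≤ (r * (n + 1) + 1) / Fintype.card R + (r * (n + 1) + 1) / Fintype.card X := by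
        have : (0 : ℝ) ≤ r := Nat.cast_nonneg r
        gcongr
        · linarith
        · linarith
    _ = _ := by ring

end Pool.Agent.ALG70
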