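import Pool.Agent.ALG70.Avg

/-!
# Learning the heavy directions of a random set of queries
-/

set_option autoImplicit false
set_option linter.unusedSectionVars false

open scoped BigOperators

namespace Pool.Agent.ALG70

open Pool.Agent.PKE70

variable {K D R : Type} [Ring K] [AddCommGroup R] [Module K R]
variable [DecidableEq D] [Fintype D] [Fintype R]

theorem exists_le_of_le_expect {Z : Type} {P : Finset Z} (hP : P.Nonempty) {F : Z → ℝ} {a : ℝ}
    (h : a ≤ 𝔼 z ∈ P, F z) : ∃ z ∈ P, a ≤ F z := by
  by_contra hcon
  push Not at hcon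
  obtain ⟨z₀, hz₀⟩ := hP
  have h2 : 𝔼 z ∈ P, F z < a :=
    Finset.expect_lt (fun z hz => (hcon z hz).le) ⟨z₀, hz₀, hcon z₀ hz₀⟩
  exact absurd h (not_le.mpr h2)

/-- If no set of at most `k q` points captures more than `c` in expectation, then no set `C` at all
captures more than `c + hh W C / k`. -/
theorem greedy {Z : Type} (P : Finset Z) (Q : Z → Finset D) (W : Submodule K (D → R)) {q : ℕ}
    (hq : ∀ z ∈ P, (Q z).card ≤ q) {c : ℝ} (hc : 0 ≤ c) {k : ℕ} (hk : 0 < k)
    (hcap : ∀ X : Finset D, X.card ≤ k * q → 𝔼 z ∈ P, mi W (Q z) X ≤ c) (C : Finset D) :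
    𝔼 z ∈ P, mi W (Q z) C ≤ c + hh W C / k := by
  have hkr : (0 : ℝ) < k := by exact_mod_cast hk
  rcases P.eq_empty_or_nonempty with rfl | hP
  · simp only [Finset.expect_empty]
    have := hh_nonneg W C
    positivity
  set J := 𝔼 z ∈ P, mi W (Q z) C with hJ
  have hstep : ∀ i : ℕ, i ≤ k → ∃ X : Finset D, X.card ≤ i * q ∧
      hh (van W X) C ≤ hh W C - i * (J - c) := by
    intro i
    induction i with
    | zero =>
      intro _
      exact ⟨∅, by simp, by simp [van_empty]⟩
    | succ i ih =>
      intro hi
      obtain ⟨X, hX1, hX2⟩ := ih (by omega)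
      have h1 : J - c ≤ 𝔼 z ∈ P, mi (van W X) (Q z) C := by
        have h2 : J ≤ 𝔼 z ∈ P, (mi W (Q z) X + mi (van W X) (Q z) C) := by
          rw [hJ]
          refine Finset.expect_le_expect fun z _ => ?_
          rw [← mi_union]
          exact mi_le_union W (Q z) C X
        rw [Finset.expect_add_distrib] at h2
        have h3 := hcap X (hX1.trans (Nat.mul_le_mul_right q (by omega)))
        linarith
      obtain ⟨z, hz, h4⟩ := exists_le_of_le_expect hP h1
      refine ⟨X ∪ Q z, ?_, ?_⟩
      · have h5 := Finset.card_union_le X (Q z)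
        have h6 := hq z hz
        have h7 : (i + 1) * q = i * q + q := by ring
        omega
      · rw [← van_van, hh_van, mi_comm]
        push_cast
        linarith
  obtain ⟨X, -, hX⟩ := hstep k le_rfl
  have h8 := hh_nonneg (van W X) C
  have h9 : k * (J - c) ≤ hh W C := by linarith
  have h10 : J - c ≤ hh W C / k := by
    rw [le_div_iff₀ hkr]
    linarith
  linarith

/-- domain of a partial function -/
def dm (v : D → Option R) : Finset D := Finset.univ.filter fun x => (v x).isSome

/-- the oracle `f` agrees with the partial function `v` -/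
def Ext (v : D → Option R) (f : D → R) : Prop := ∀ x y, v x = some y → f x = y

/-- update the knowledge `v` by the answers on `X` -/
def upd (X : Finset D) (f : D → R) (v : D → Option R) : D → Option R :=
  fun x => if x ∈ X then some (f x) else v x

theorem mem_dm {v : D → Option R} {x : D} : x ∈ dm v ↔ ∃ y, v x = some y := by
  simp [dm, Option.isSome_iff_exists]

theorem dm_upd (X : Finset D) (f : D → R) (v : D → Option R) : dm (upd X f v) = dm v ∪ X := by
  ext x
  rw [Finset.mem_union, mem_dm, mem_dm]
  by_cases hx : x ∈ X <;> simp [upd, hx]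

theorem ext_none (f : D → R) : Ext (fun _ => none) f := fun _ _ h => by simp at h

theorem dm_none : dm (fun _ : D => (none : Option R)) = ∅ := by
  ext x; simp [dm]

theorem Ext.upd {v : D → Option R} {f : D → R} (h : Ext v f) (X : Finset D) :
    Ext (upd X f v) f := by
  intro x y hxy
  by_cases hx : x ∈ X
  · simpa [ALG70.upd, hx] using hxy
  · exact h x y (by simpa [ALG70.upd, hx] using hxy)

theorem Ext.of_upd {v : D → Option R} {f f' : D → R} (h : Ext v f) {X : Finset D}
    (h' : Ext (ALG70.upd X f v) f') : Ext v f' := by
  intro x y hxy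
  by_cases hx : x ∈ X
  · rw [← h x y hxy]
    exact h' x (f x) (by simp [ALG70.upd, hx])
  · exact h' x y (by simpa [ALG70.upd, hx] using hxy)

theorem Ext.congr {v : D → Option R} {f f' : D → R} (h : Ext v f)
    (h' : ∀ x ∈ dm v, f' x = f x) : Ext v f' := by
  intro x y hxy
  rw [h' x (mem_dm.mpr ⟨y, hxy⟩)]
  exact h x y hxy

theorem Ext.eq_on {v : D → Option R} {f f' : D → R} (h : Ext v f) (h' : Ext v f') :
    ∀ x ∈ dm v, f' x = f x := by
  intro x hx
  obtain ⟨y, hy⟩ := mem_dm.mp hx
  rw [h x y hy, h' x y hy]

theorem upd_congr {v : D → Option R} {f f' : D → R} {X : Finset D}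
    (h : ∀ x ∈ X, f' x = f x) : upd X f' v = upd X f v := by
  funext x
  by_cases hx : x ∈ X
  · simp [upd, hx, h x hx]
  · simp [upd, hx]

section Learner

variable {Z O : Type} (W : Submodule K (D → R)) (P : Finset Z) (F : Z → D → R)
  (Q : Z → Finset D) (obs : Z → O) (n : ℕ)

open Classical in
/-- the worlds compatible with the observation `o` and the knowledge `v` -/
noncomputable def cell (o : O) (v : D → Option R) : Finset Z :=
  P.filter fun z => obs z = o ∧ Ext v (F z)

theorem mem_cell {o : O} {v : D → Option R} {z : Z} :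
    z ∈ cell P F obs o v ↔ z ∈ P ∧ obs z = o ∧ Ext v (F z) := by
  simp [cell]

/-- expected capture by the set `X` -/
noncomputable def capv (o : O) (v : D → Option R) (X : Finset D) : ℝ :=
  𝔼 z ∈ cell P F obs o v, mi (van W (dm v)) (Q z) X

theorem exists_best (o : O) (v : D → Option R) :
    ∃ X : Finset D, X.card ≤ n ∧
      ∀ X' : Finset D, X'.card ≤ n → capv W P F Q obs o v X' ≤ capv W P F Q obs o v X := by
  obtain ⟨X, hX, h⟩ := Finset.exists_max_image
    ((Finset.univ : Finset (Finset D)).filter fun X => X.card ≤ n)
    (capv W P F Q obs o v) ⟨∅, by simp⟩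
  refine ⟨X, (Finset.mem_filter.mp hX).2, fun X' hX' => h X' ?_⟩
  simpa using hX'

/-- the best set of at most `n` points to query -/
noncomputable def best (o : O) (v : D → Option R) : Finset D :=
  Classical.choose (exists_best W P F Q obs n o v)

theorem card_best_le (o : O) (v : D → Option R) : (best W P F Q obs n o v).card ≤ n :=
  (Classical.choose_spec (exists_best W P F Q obs n o v)).1

/-- the capture by the best set -/
noncomputable def cap (o : O) (v : D → Option R) : ℝ :=
  capv W P F Q obs o v (best W P F Q obs n o v)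

theorem capv_le_cap (o : O) (v : D → Option R) {X : Finset D} (hX : X.card ≤ n) :
    capv W P F Q obs o v X ≤ cap W P F Q obs n o v :=
  (Classical.choose_spec (exists_best W P F Q obs n o v)).2 X hX

theorem cap_nonneg (o : O) (v : D → Option R) : 0 ≤ cap W P F Q obs n o v :=
  Finset.expect_nonneg fun _ _ => mi_nonneg _ _ _

/-- the knowledge after `t` steps of learning, with oracle `f` -/
noncomputable def know (o : O) (f : D → R) (v : D → Option R) (t : ℕ) : D → Option R :=
  (fun v => upd (best W P F Q obs n o v) f v)^[t] v

theorem know_zero (o : O) (f : D → R) (v : D → Option R) :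
    know W P F Q obs n o f v 0 = v := rfl

theorem know_succ (o : O) (f : D → R) (v : D → Option R) (t : ℕ) :
    know W P F Q obs n o f v (t + 1) =
      upd (best W P F Q obs n o (know W P F Q obs n o f v t)) f
        (know W P F Q obs n o f v t) := by
  rw [know, Function.iterate_succ_apply']
  rfl

theorem know_ext {o : O} {f : D → R} {v : D → Option R} (h : Ext v f) (t : ℕ) :
    Ext (know W P F Q obs n o f v t) f := by
  induction t with
  | zero => exact h
  | succ t ih =>
    rw [know_succ]
    exact ih.upd _

theorem ext_of_know {o : O} {f f' : D → R} {v : D → Option R} (h : Ext v f) (t : ℕ)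
    (h' : Ext (know W P F Q obs n o f v t) f') : Ext v f' := by
  induction t with
  | zero => exact h'
  | succ t ih =>
    rw [know_succ] at h'
    exact ih ((know_ext W P F Q obs n h t).of_upd h')

theorem dm_subset_know (o : O) (f : D → R) (v : D → Option R) (t : ℕ) :
    dm v ⊆ dm (know W P F Q obs n o f v t) := by
  induction t with
  | zero => exact subset_rfl
  | succ t ih =>
    rw [know_succ, dm_upd]
    exact ih.trans Finset.subset_union_left

/-- the learned points, except for the initial ones, are few -/
theorem know_dm (o : O) (f : D → R) (v : D → Option R) (t : ℕ) :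
    ∃ Y : Finset D, Y.card ≤ t * n ∧ dm (know W P F Q obs n o f v t) = dm v ∪ Y := by
  induction t with
  | zero => exact ⟨∅, by simp, by simp [know_zero]⟩
  | succ t ih =>
    obtain ⟨Y, hY1, hY2⟩ := ih
    refine ⟨Y ∪ best W P F Q obs n o (know W P F Q obs n o f v t), ?_, ?_⟩
    · have h1 := Finset.card_union_le Y (best W P F Q obs n o (know W P F Q obs n o f v t))
      have h2 := card_best_le W P F Q obs n o (know W P F Q obs n o f v t)
      have h3 : (t + 1) * n = t * n + n := by ring
      omega
    · rw [know_succ, dm_upd, hY2, Finset.union_assoc]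

theorem know_local {o : O} {f f' : D → R} {v : D → Option R} (h : Ext v f) (t : ℕ)
    (h' : Ext (know W P F Q obs n o f v t) f') :
    know W P F Q obs n o f' v t = know W P F Q obs n o f v t := by
  induction t with
  | zero => rfl
  | succ t ih =>
    rw [know_succ] at h'
    have h1 := ih ((know_ext W P F Q obs n h t).of_upd h')
    rw [know_succ, know_succ, h1]
    refine upd_congr fun x hx => ?_
    exact h' x (f x) (by simp [upd, hx])

open Classical in
/-- the worlds compatible with the initial knowledge `v` -/
noncomputable def start (v : D → Option R) : Finset Z := P.filter fun z => Ext v (F z)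

open Classical in
theorem filter_view_eq_cell (v : D → Option R) (t : ℕ) {z : Z} (hz : z ∈ start P F v) :
    ((start P F v).filter fun z' =>
      (obs z', know W P F Q obs n (obs z') (F z') v t) =
        (obs z, know W P F Q obs n (obs z) (F z) v t)) =
      cell P F obs (obs z) (know W P F Q obs n (obs z) (F z) v t) := by
  have hz2 : Ext v (F z) := (Finset.mem_filter.mp hz).2
  ext z'
  simp only [start, cell, Finset.mem_filter, Prod.mk.injEq]
  constructor
  · rintro ⟨⟨h1, h2⟩, h3, h4⟩
    refine ⟨h1, h3, ?_⟩
    rw [← h4]
    exact know_ext W P F Q obs n h2 t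
  · rintro ⟨h1, h3, h4⟩
    refine ⟨⟨h1, ext_of_know W P F Q obs n hz2 t h4⟩, h3, ?_⟩
    rw [h3]
    exact know_local W P F Q obs n hz2 t h4

open Classical in
/-- averaging over what the learner does not know -/
theorem expect_start (v : D → Option R) (t : ℕ) (G : Z → ℝ) :
    𝔼 z ∈ start P F v, G z = 𝔼 z ∈ start P F v,
      𝔼 z' ∈ cell P F obs (obs z) (know W P F Q obs n (obs z) (F z) v t), G z' := by
  rw [expect_cells (start P F v)
    (fun z' => (obs z', know W P F Q obs n (obs z') (F z') v t)) G]
  refine Finset.expect_congr rfl fun z hz => ?_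
  rw [filter_view_eq_cell W P F Q obs n v t hz]

/-- the entropy of the unknown queries drops by the capture -/
theorem expect_hh_succ (v : D → Option R) (t : ℕ) :
    𝔼 z ∈ start P F v, hh (van W (dm (know W P F Q obs n (obs z) (F z) v (t + 1)))) (Q z) =
      𝔼 z ∈ start P F v, hh (van W (dm (know W P F Q obs n (obs z) (F z) v t))) (Q z) -
      𝔼 z ∈ start P F v, cap W P F Q obs n (obs z)
        (know W P F Q obs n (obs z) (F z) v t) := by
  classical
  have h1 : 𝔼 z ∈ start P F v, cap W P F Q obs n (obs z)
        (know W P F Q obs n (obs z) (F z) v t) =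
      𝔼 z ∈ start P F v, mi (van W (dm (know W P F Q obs n (obs z) (F z) v t))) (Q z)
        (best W P F Q obs n (obs z) (know W P F Q obs n (obs z) (F z) v t)) := by
    rw [expect_start W P F Q obs n v t (fun z =>
      mi (van W (dm (know W P F Q obs n (obs z) (F z) v t))) (Q z)
        (best W P F Q obs n (obs z) (know W P F Q obs n (obs z) (F z) v t)))]
    refine Finset.expect_congr rfl fun z hz => ?_
    rw [cap, capv]
    refine Finset.expect_congr rfl fun z' hz' => ?_
    rw [← filter_view_eq_cell W P F Q obs n v t hz] at hz'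
    have h2 := (Finset.mem_filter.mp hz').2
    simp only [Prod.mk.injEq] at h2
    rw [h2.2, h2.1]
  rw [h1, ← Finset.expect_sub_distrib]
  refine Finset.expect_congr rfl fun z _ => ?_
  rw [know_succ, dm_upd, ← van_van, hh_van]

/-- at some time before `T` the expected capture is small -/
theorem exists_time {q r : ℕ} (hr : Module.length K R ≤ r) (hq : ∀ z ∈ P, (Q z).card ≤ q)
    (v : D → Option R) {T : ℕ} (hT : 0 < T) :
    ∃ t < T, 𝔼 z ∈ start P F v, cap W P F Q obs n (obs z)
      (know W P F Q obs n (obs z) (F z) v t) ≤ (r * q : ℝ) / T := by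
  classical
  have hTr : (0 : ℝ) < T := by exact_mod_cast hT
  by_contra hcon
  push Not at hcon
  have h1 : ∀ t ≤ T, 𝔼 z ∈ start P F v,
      hh (van W (dm (know W P F Q obs n (obs z) (F z) v t))) (Q z) ≤
      r * q - t * ((r * q : ℝ) / T) := by
    intro t
    induction t with
    | zero =>
      intro _
      simp only [Nat.cast_zero, zero_mul, sub_zero, know_zero]
      rcases (start P F v).eq_empty_or_nonempty with h0 | h0
      · rw [h0, Finset.expect_empty]; positivity
      · refine Finset.expect_le h0 fun z hz => ?_
        refine (hh_le _ _ hr).trans ?_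
        have h2 : ((Q z).card : ℝ) ≤ q := by
          exact_mod_cast hq z (Finset.mem_filter.mp hz).1
        gcongr
    | succ t ih =>
      intro ht
      rw [expect_hh_succ]
      have h2 := ih (by omega)
      have h3 := hcon t (by omega)
      push_cast
      linarith
  have h4 := h1 T le_rfl
  have h5 : (0 : ℝ) ≤ 𝔼 z ∈ start P F v,
      hh (van W (dm (know W P F Q obs n (obs z) (F z) v T))) (Q z) :=
    Finset.expect_nonneg fun _ _ => hh_nonneg _ _
  obtain ⟨T', rfl⟩ : ∃ T', T = T' + 1 := ⟨T - 1, by omega⟩
  rw [expect_hh_succ] at h5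
  have h6 := h1 T' (by omega)
  have h7 := hcon T' (by omega)
  have h8 : ((T' + 1 : ℕ) : ℝ) * ((r * q : ℝ) / ((T' + 1 : ℕ) : ℝ)) = r * q :=
    mul_div_cancel₀ _ hTr.ne'
  have h9 : ((T' + 1 : ℕ) : ℝ) = T' + 1 := by push_cast; ring
  rw [h9] at h6 h7 h8
  nlinarith

/-- what is not learned is light -/
theorem light {q k : ℕ} (hq : ∀ z ∈ P, (Q z).card ≤ q) (hk : 0 < k) (hn : k * q ≤ n) (o : O)
    (v : D → Option R) (C : Finset D) :
    𝔼 z ∈ cell P F obs o v, mi (van W (dm v)) (Q z) C ≤
      cap W P F Q obs n o v + hh (van W (dm v)) C / k :=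
  greedy _ Q _ (fun z hz => hq z ((mem_cell P F obs).mp hz).1)
    (cap_nonneg W P F Q obs n o v) hk
    (fun X hX => capv_le_cap W P F Q obs n o v (hX.trans hn)) C

/-- ask a list of points -/
def askL : List D → QAlg D R Unit
  | [] => .ret ()
  | x :: l => .ask x fun _ => askL l

omit [Fintype D] [Fintype R] [AddCommGroup R] in
theorem queries_askL (f : D → R) (l : List D) : (askL l).queries f = l.toFinset := by
  induction l with
  | nil => rfl
  | cons x l ih => rw [askL, QAlg.queries_ask, ih, List.toFinset_cons]

omit [Fintype D] [Fintype R] [AddCommGroup R] [DecidableEq D] in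
theorem cost_askL (f : D → R) (l : List D) : (askL l).cost f = l.length := by
  induction l with
  | nil => rfl
  | cons x l ih => rw [askL, QAlg.cost_ask, ih, List.length_cons]

/-- the learner as an oracle algorithm -/
noncomputable def lrn (o : O) : ℕ → (D → Option R) → QAlg D R (D → Option R)
  | 0, v => .ret v
  | t + 1, v => ((askL (best W P F Q obs n o v).toList).record v).bind fun v' => lrn o t v'

theorem run_lrn (o : O) (f : D → R) (t : ℕ) (v : D → Option R) :
    (lrn W P F Q obs n o t v).run f = know W P F Q obs n o f v t := by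
  induction t generalizing v with
  | zero => rfl
  | succ t ih =>
    rw [lrn, QAlg.run_bind, ih, QAlg.run_record, queries_askL, Finset.toList_toFinset]
    rfl

theorem cost_lrn (o : O) (f : D → R) (t : ℕ) (v : D → Option R) :
    (lrn W P F Q obs n o t v).cost f ≤ t * n := by
  induction t generalizing v with
  | zero => simp [lrn]
  | succ t ih =>
    rw [lrn, QAlg.cost_bind, QAlg.cost_record, cost_askL, Finset.length_toList]
    have h1 := card_best_le W P F Q obs n o v
    have h2 := ih (((askL (best W P F Q obs n o v).toList).record v).run f)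
    have h3 : (t + 1) * n = t * n + n := by ring
    omega

end Learner

end Pool.Agent.ALG70
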