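import Pool.Agent.PKE70.Basic

/-!
# Linear algebra of partially known linear oracles

`W` is a submodule of the functions `D → R`; `van W A` consists of its elements vanishing on `A`.
`hh W B` and `mi W B C` are the entropy of the answers at `B`, and the mutual information of the
answers at `B` and at `C`, for a uniformly random element of `W` (in units of length of modules).
-/

set_option autoImplicit false
set_option linter.unusedSectionVars false

open scoped BigOperators

namespace Pool.Agent.ALG70

open Pool.Agent.PKE70

variable {K D R : Type} [Ring K] [AddCommGroup R] [Module K R]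

/-- the elements of `W` that vanish on `A` -/
def van (W : Submodule K (D → R)) (A : Finset D) : Submodule K (D → R) where
  carrier := {w | w ∈ W ∧ ∀ x ∈ A, w x = 0}
  add_mem' := by
    rintro a b ⟨ha, ha'⟩ ⟨hb, hb'⟩
    exact ⟨W.add_mem ha hb, fun x hx => by simp [ha' x hx, hb' x hx]⟩
  zero_mem' := ⟨W.zero_mem, fun x _ => rfl⟩
  smul_mem' := by
    rintro c a ⟨ha, ha'⟩
    exact ⟨W.smul_mem c ha, fun x hx => by simp [ha' x hx]⟩

theorem mem_van {W : Submodule K (D → R)} {A : Finset D} {w : D → R} :
    w ∈ van W A ↔ w ∈ W ∧ ∀ x ∈ A, w x = 0 := Iff.rfl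

theorem van_le (W : Submodule K (D → R)) (A : Finset D) : van W A ≤ W := fun _ h => h.1

theorem van_empty (W : Submodule K (D → R)) : van W ∅ = W := by
  ext w; simp [mem_van]

theorem van_mono {W W' : Submodule K (D → R)} (h : W ≤ W') {A B : Finset D} (hAB : A ⊆ B) :
    van W B ≤ van W' A := fun _ hw => ⟨h hw.1, fun x hx => hw.2 x (hAB hx)⟩

variable [DecidableEq D]

theorem van_van (W : Submodule K (D → R)) (A B : Finset D) :
    van (van W A) B = van W (A ∪ B) := by
  ext w
  simp only [mem_van, Finset.mem_union]
  constructor
  · rintro ⟨⟨h1, h2⟩, h3⟩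
    exact ⟨h1, fun x hx => hx.elim (h2 x) (h3 x)⟩
  · rintro ⟨h1, h2⟩
    exact ⟨⟨h1, fun x hx => h2 x (Or.inl hx)⟩, fun x hx => h2 x (Or.inr hx)⟩

theorem van_inf (W : Submodule K (D → R)) (A B : Finset D) :
    van W A ⊓ van W B = van W (A ∪ B) := by
  ext w
  simp only [Submodule.mem_inf, mem_van, Finset.mem_union]
  constructor
  · rintro ⟨⟨h1, h2⟩, -, h3⟩
    exact ⟨h1, fun x hx => hx.elim (h2 x) (h3 x)⟩
  · rintro ⟨h1, h2⟩
    exact ⟨⟨h1, fun x hx => h2 x (Or.inl hx)⟩, h1, fun x hx => h2 x (Or.inr hx)⟩

section Len

variable [Finite D] [Finite R]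

/-- length -/
noncomputable def len (N : Submodule K (D → R)) : ℕ := (Module.length K N).toNat

omit [DecidableEq D] in
theorem length_ne_top' (N : Submodule K (D → R)) : Module.length K N ≠ ⊤ :=
  Module.length_ne_top

omit [DecidableEq D] in
theorem coe_len (N : Submodule K (D → R)) : ((len N : ℕ) : ℕ∞) = Module.length K N :=
  ENat.natCast_toNat (length_ne_top' N)

omit [DecidableEq D] in
theorem len_mono {N N' : Submodule K (D → R)} (h : N ≤ N') : len N ≤ len N' := by
  have h1 : Module.length K N ≤ Module.length K N' :=
    Module.length_le_of_injective (Submodule.inclusion h) (Submodule.inclusion_injective h)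
  rw [← coe_len, ← coe_len] at h1
  exact_mod_cast h1

omit [DecidableEq D] in
theorem len_lt {N N' : Submodule K (D → R)} (h : N < N') : len N < len N' := by
  have h1 : Module.length K N < Module.length K N' := by
    rw [Module.length_submodule, Module.length_submodule]
    exact Submodule.height_strictMono h
  rw [← coe_len, ← coe_len] at h1
  exact_mod_cast h1

omit [DecidableEq D] in
theorem len_sup_add_inf (M N : Submodule K (D → R)) :
    len (M ⊔ N) + len (M ⊓ N) = len M + len N := by
  -- exact sequences `0 → M ⊓ N → M → (M ⊔ N) ⧸ N → 0` and `0 → N → M ⊔ N → (M ⊔ N) ⧸ N → 0`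
  have h1 : Module.length K (M × N) =
      Module.length K (M ⊓ N : Submodule K (D → R)) +
        Module.length K (M ⊔ N : Submodule K (D → R)) := by
    let f : (M ⊓ N : Submodule K (D → R)) →ₗ[K] (M × N) :=
      (Submodule.inclusion inf_le_left).prod (Submodule.inclusion inf_le_right)
    let g : (M × N) →ₗ[K] (M ⊔ N : Submodule K (D → R)) :=
      (Submodule.inclusion le_sup_left).comp (LinearMap.fst K M N) -
        (Submodule.inclusion le_sup_right).comp (LinearMap.snd K M N)
    refine Module.length_eq_add_of_exact f g ?_ ?_ ?_
    · intro a b hab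
      have := congrArg (fun p : M × N => (p.1 : D → R)) hab
      exact Subtype.ext this
    · rintro ⟨x, hx⟩
      obtain ⟨y, hy, z, hz, rfl⟩ := Submodule.mem_sup.mp hx
      refine ⟨(⟨y, hy⟩, ⟨-z, N.neg_mem hz⟩), ?_⟩
      apply Subtype.ext
      show y - -z = y + z
      abel
    · intro p
      constructor
      · intro hp
        have hp' : (p.1 : D → R) - (p.2 : D → R) = 0 := congrArg Subtype.val hp
        have h3 : (p.1 : D → R) = p.2 := sub_eq_zero.mp hp'
        refine ⟨⟨p.1, p.1.2, h3 ▸ p.2.2⟩, ?_⟩
        apply Prod.ext
        · rfl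
        · exact Subtype.ext h3
      · rintro ⟨a, rfl⟩
        apply Subtype.ext
        show (a : D → R) - a = 0
        exact sub_self _
  rw [Module.length_prod, ← coe_len, ← coe_len, ← coe_len, ← coe_len] at h1
  have h2 : len M + len N = len (M ⊓ N) + len (M ⊔ N) := by exact_mod_cast h1
  omega

/-- a set of `n` points carries at most `r n` -/
theorem len_le_add (W : Submodule K (D → R)) (B : Finset D) {r : ℕ}
    (hr : Module.length K R ≤ r) : len W ≤ len (van W B) + r * B.card := by
  let g : W →ₗ[K] (B → R) :=
    { toFun := fun w b => (w : D → R) b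
      map_add' := fun _ _ => rfl
      map_smul' := fun _ _ => rfl }
  have h1 : Module.length K W = Module.length K (LinearMap.ker g) +
      Module.length K (LinearMap.range g) :=
    Module.length_eq_add_of_exact (LinearMap.ker g).subtype g.rangeRestrict
      (Submodule.subtype_injective _) (LinearMap.surjective_rangeRestrict g)
      (by
        intro x
        constructor
        · intro hx
          refine ⟨⟨x, ?_⟩, rfl⟩
          have := congrArg Subtype.val hx
          exact this
        · rintro ⟨y, rfl⟩
          apply Subtype.ext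
          exact y.2)
  have h2 : Module.length K (LinearMap.range g) ≤ B.card * r := by
    calc Module.length K (LinearMap.range g) ≤ Module.length K (B → R) :=
          Module.length_le_of_injective (LinearMap.range g).subtype (Submodule.subtype_injective _)
      _ = B.card * Module.length K R := by
          rw [Module.length_pi]
          simp
      _ ≤ B.card * r := by gcongr
  have h3 : Module.length K (LinearMap.ker g) ≤ Module.length K (van W B) := by
    let f : LinearMap.ker g →ₗ[K] van W B :=
      { toFun := fun w => ⟨w.1, w.1.2, fun x hx => by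
          have h4 := w.2
          rw [LinearMap.mem_ker] at h4
          exact congrFun h4 ⟨x, hx⟩⟩
        map_add' := fun _ _ => rfl
        map_smul' := fun _ _ => rfl }
    refine Module.length_le_of_injective f ?_
    intro a b hab
    have := congrArg (fun p : van W B => (p : D → R)) hab
    exact Subtype.ext (Subtype.ext this)
  have h5 : Module.length K W ≤ Module.length K (van W B) + B.card * r := by
    rw [h1]
    exact add_le_add h3 h2
  rw [← coe_len, ← coe_len] at h5
  have h6 : len W ≤ len (van W B) + B.card * r := by exact_mod_cast h5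
  rw [mul_comm]
  exact h6

/-- entropy of the answers at `B` -/
noncomputable def hh (W : Submodule K (D → R)) (B : Finset D) : ℝ :=
  (len W : ℝ) - len (van W B)

/-- mutual information of the answers at `B` and at `C` -/
noncomputable def mi (W : Submodule K (D → R)) (B C : Finset D) : ℝ :=
  hh W B - hh (van W C) B

omit [DecidableEq D] in
theorem hh_nonneg (W : Submodule K (D → R)) (B : Finset D) : 0 ≤ hh W B := by
  rw [hh, sub_nonneg]
  exact_mod_cast len_mono (van_le W B)

theorem hh_le (W : Submodule K (D → R)) (B : Finset D) {r : ℕ}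
    (hr : Module.length K R ≤ r) : hh W B ≤ r * B.card := by
  have h := len_le_add W B hr
  have h' : (len W : ℝ) ≤ len (van W B) + r * B.card := by exact_mod_cast h
  rw [hh]
  linarith

theorem mi_eq (W : Submodule K (D → R)) (B C : Finset D) :
    mi W B C = (len W : ℝ) - len (van W B) - len (van W C) + len (van W (B ∪ C)) := by
  rw [mi, hh, hh, van_van, Finset.union_comm C B]
  ring

theorem mi_comm (W : Submodule K (D → R)) (B C : Finset D) : mi W B C = mi W C B := by
  rw [mi_eq, mi_eq, Finset.union_comm]
  ring

/-- independence of the answers at `B` and at `C` -/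
def Ind (W : Submodule K (D → R)) (B C : Finset D) : Prop := W ≤ van W B ⊔ van W C

theorem mi_eq_sub (W : Submodule K (D → R)) (B C : Finset D) :
    mi W B C = (len W : ℝ) - len (van W B ⊔ van W C) := by
  have h := len_sup_add_inf (van W B) (van W C)
  rw [van_inf] at h
  have h' : (len (van W B ⊔ van W C) : ℝ) + len (van W (B ∪ C)) =
    len (van W B) + len (van W C) := by exact_mod_cast h
  rw [mi_eq]
  linarith

theorem mi_nonneg (W : Submodule K (D → R)) (B C : Finset D) : 0 ≤ mi W B C := by
  rw [mi_eq_sub, sub_nonneg]
  exact_mod_cast len_mono (sup_le (van_le W B) (van_le W C))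

theorem one_le_mi {W : Submodule K (D → R)} {B C : Finset D} (h : ¬ Ind W B C) :
    1 ≤ mi W B C := by
  have h1 : van W B ⊔ van W C < W :=
    lt_of_le_of_ne (sup_le (van_le W B) (van_le W C)) fun h2 => h h2.ge
  have h2 := len_lt h1
  have h3 : (len (van W B ⊔ van W C) : ℝ) + 1 ≤ len W := by exact_mod_cast h2
  rw [mi_eq_sub]
  linarith

theorem mi_eq_zero {W : Submodule K (D → R)} {B C : Finset D} (h : Ind W B C) :
    mi W B C = 0 := by
  have h1 : van W B ⊔ van W C = W := le_antisymm (sup_le (van_le W B) (van_le W C)) h
  rw [mi_eq_sub, h1, sub_self]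

theorem mi_le_hh (W : Submodule K (D → R)) (B C : Finset D) : mi W B C ≤ hh W C := by
  rw [mi_comm, mi]
  have := hh_nonneg (van W B) C
  linarith

/-- chain rule -/
theorem mi_union (W : Submodule K (D → R)) (B C X : Finset D) :
    mi W B (X ∪ C) = mi W B X + mi (van W X) B C := by
  simp only [mi, hh, van_van, Finset.union_assoc]
  ring

theorem mi_le_union (W : Submodule K (D → R)) (B C X : Finset D) :
    mi W B C ≤ mi W B (X ∪ C) := by
  rw [Finset.union_comm, mi_union]
  have := mi_nonneg (van W C) B X
  linarith

theorem mi_van_le_union (W : Submodule K (D → R)) (B C X : Finset D) :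
    mi (van W X) B C ≤ mi W B (X ∪ C) := by
  rw [mi_union]
  have := mi_nonneg W B X
  linarith

theorem mi_mono_right (W : Submodule K (D → R)) (B : Finset D) {C C' : Finset D} (h : C ⊆ C') :
    mi W B C ≤ mi W B C' := by
  have h1 := mi_le_union W B C C'
  rwa [Finset.union_eq_left.mpr h] at h1

/-- entropy drops by the mutual information -/
theorem hh_van (W : Submodule K (D → R)) (B X : Finset D) :
    hh (van W X) B = hh W B - mi W B X := by
  rw [mi]; ring

end Len

end Pool.Agent.ALG70
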