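import Pool.Agent.ALG70.Defs

/-!
# Low-degree extensions

Functions given by polynomials of degree at most `d` in each variable; a grid with `d + 1` values
in each direction is an information set.
-/

set_option autoImplicit false

open scoped BigOperators

namespace Pool.Agent.ALG70

open MvPolynomial

/-- the functions `K^m → K` given by polynomials of degree at most `d` in each variable -/
noncomputable def lowDeg (K : Type) [Field K] (m d : ℕ) : Submodule K ((Fin m → K) → K) :=
  (MvPolynomial.restrictDegree (Fin m) K d).map (MvPolynomial.evalₗ K (Fin m))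

variable {K : Type} [Field K] [DecidableEq K]

/-- Lagrange polynomial in the variable `i` -/
noncomputable def lag (m : ℕ) (T : Finset K) (i : Fin m) (s : K) : MvPolynomial (Fin m) K :=
  ∏ s' ∈ T.erase s, C ((s - s')⁻¹) * (X i - C s')

theorem eval_lag (m : ℕ) (T : Finset K) (i : Fin m) {s : K} (x : Fin m → K)
    (hx : x i ∈ T) : eval x (lag m T i s) = if x i = s then 1 else 0 := by
  rw [lag, map_prod]
  split_ifs with h
  · refine Finset.prod_eq_one fun s' hs' => ?_
    rw [map_mul, map_sub, eval_C, eval_X, eval_C, h]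
    exact inv_mul_cancel₀ (sub_ne_zero.mpr (Finset.ne_of_mem_erase hs').symm)
  · refine Finset.prod_eq_zero (Finset.mem_erase.mpr ⟨h, hx⟩) ?_
    rw [map_mul, map_sub, eval_X, eval_C, eval_C, sub_self, mul_zero]

theorem degreeOf_lag_ne (m : ℕ) (T : Finset K) {i i' : Fin m} (h : i ≠ i') (s : K) :
    degreeOf i' (lag m T i s) = 0 := by
  rw [lag]
  have h1 : degreeOf i' (∏ s' ∈ T.erase s, C ((s - s')⁻¹) * (X i - C s')) ≤
      ∑ s' ∈ T.erase s, degreeOf i' (C ((s - s')⁻¹) * (X i - C s')) := degreeOf_prod_le _ _ _
  have h2 : ∑ s' ∈ T.erase s, degreeOf i' (C ((s - s')⁻¹) * (X i - C s' :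
      MvPolynomial (Fin m) K)) = 0 := by
    refine Finset.sum_eq_zero fun s' _ => ?_
    have h3 := degreeOf_mul_le i' (C ((s - s')⁻¹)) (X i - C s' : MvPolynomial (Fin m) K)
    have h4 := degreeOf_sub_le i' (X i : MvPolynomial (Fin m) K) (C s')
    rw [degreeOf_C, degreeOf_X_of_ne (Ne.symm h)] at h4
    rw [degreeOf_C] at h3
    simp at h4
    omega
  omega

theorem degreeOf_lag (m : ℕ) (T : Finset K) (i : Fin m) {s : K} (hs : s ∈ T) :
    degreeOf i (lag m T i s) ≤ T.card - 1 := by
  rw [lag]
  have h1 : degreeOf i (∏ s' ∈ T.erase s, C ((s - s')⁻¹) * (X i - C s')) ≤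
      ∑ s' ∈ T.erase s, degreeOf i (C ((s - s')⁻¹) * (X i - C s')) := degreeOf_prod_le _ _ _
  have h2 : ∑ s' ∈ T.erase s, degreeOf i (C ((s - s')⁻¹) * (X i - C s' :
      MvPolynomial (Fin m) K)) ≤ ∑ _s' ∈ T.erase s, 1 := by
    refine Finset.sum_le_sum fun s' _ => ?_
    have h3 := degreeOf_mul_le i (C ((s - s')⁻¹)) (X i - C s' : MvPolynomial (Fin m) K)
    have h4 := degreeOf_sub_le i (X i : MvPolynomial (Fin m) K) (C s')
    rw [degreeOf_C, degreeOf_X_self] at h4
    rw [degreeOf_C] at h3
    simp at h4
    omega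
  rw [Finset.sum_const, smul_eq_mul, mul_one, Finset.card_erase_of_mem hs] at h2
  omega

/-- a grid is an information set for low-degree polynomials -/
theorem infoSet_lowDeg (m d : ℕ) (T : Finset K) (hT : T.card = d + 1) :
    InfoSet (fun (x : Fin m → T) (i : Fin m) => (x i : K)) (lowDeg K m d) := by
  constructor
  · intro x y h
    funext i
    exact Subtype.ext (congrFun h i)
  · intro h
    refine ⟨evalₗ K (Fin m) (∑ a : Fin m → T, h a • ∏ i, lag m T i (a i : K)), ?_, ?_⟩
    · refine Submodule.mem_map_of_mem (Submodule.sum_mem _ fun a _ => Submodule.smul_mem _ _ ?_)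
      rw [mem_restrictDegree]
      intro s hs i
      have h1 : degreeOf i (∏ i, lag m T i (a i : K)) ≤ d := by
        refine (degreeOf_prod_le _ _ _).trans ?_
        rw [Finset.sum_eq_single i]
        · refine (degreeOf_lag m T i (a i).2).trans ?_
          omega
        · intro i' _ hi'
          exact degreeOf_lag_ne m T hi' _
        · intro hi
          exact absurd (Finset.mem_univ i) hi
      exact (degreeOf_le_iff.mp h1) s hs
    · intro x
      have h2 : evalₗ K (Fin m) (∑ a : Fin m → T, h a • ∏ i, lag m T i (a i : K))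
          (fun i => (x i : K)) = eval (fun i => (x i : K))
            (∑ a : Fin m → T, h a • ∏ i, lag m T i (a i : K)) := rfl
      rw [h2, map_sum, Finset.sum_eq_single x]
      · rw [smul_eval, map_prod, Finset.prod_eq_one, mul_one]
        intro i _
        rw [eval_lag m T i _ (x i).2, if_pos rfl]
      · intro a _ ha
        obtain ⟨i, hi⟩ := Function.ne_iff.mp ha
        rw [smul_eval, map_prod, Finset.prod_eq_zero (Finset.mem_univ i), mul_zero]
        rw [eval_lag m T i _ (x i).2, if_neg fun h => hi (Subtype.ext h.symm)]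
      · intro hx
        exact absurd (Finset.mem_univ x) hx

end Pool.Agent.ALG70
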