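import Pool.Agent.ALG70.Learn

/-!
# The attack on public-key encryption relative to a linear oracle
-/

set_option autoImplicit false
set_option linter.unusedSectionVars false

open scoped BigOperators

namespace Pool.Agent.ALG70

open Pool.Agent.PKE70

variable {K D R : Type} [Ring K] [AddCommGroup R] [Module K R]
variable [DecidableEq D] [Fintype D] [Fintype R]

open Classical in
/-- indicator -/
noncomputable def ind (p : Prop) : ℝ := if p then 1 else 0

theorem ind_eq (p : Prop) [Decidable p] : ind p = if p then 1 else 0 := by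
  unfold ind; congr

theorem ind_true {p : Prop} (h : p) : ind p = 1 := by simp [ind, h]
theorem ind_false {p : Prop} (h : ¬ p) : ind p = 0 := by simp [ind, h]

theorem ind_nonneg (p : Prop) : 0 ≤ ind p := by
  unfold ind; split_ifs <;> norm_num

theorem ind_le_one (p : Prop) : ind p ≤ 1 := by
  unfold ind; split_ifs <;> norm_num

theorem one_sub_ind_le_mi (W : Submodule K (D → R)) (B C : Finset D) :
    1 - ind (Ind W B C) ≤ mi W B C := by
  by_cases h : Ind W B C
  · rw [ind_true h, sub_self]; exact mi_nonneg _ _ _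
  · rw [ind_false h, sub_zero]; exact one_le_mi h

theorem expect_mem_le_one {Z : Type} (P : Finset Z) {F : Z → ℝ} (h : ∀ z ∈ P, F z ≤ 1) :
    𝔼 z ∈ P, F z ≤ 1 := by
  rcases P.eq_empty_or_nonempty with rfl | hP
  · simp
  · exact Finset.expect_le hP h

theorem expect_const_le {Z : Type} (P : Finset Z) {c : ℝ} (hc : 0 ≤ c) :
    𝔼 _z ∈ P, c ≤ c := by
  rcases P.eq_empty_or_nonempty with rfl | hP
  · simpa using hc
  · rw [Finset.expect_const hP]

/-- comparison of two worlds that differ in the exposed answers `G` -/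
theorem real_le_ideal (S : Submodule K (D → R)) (G : Finset D) (f₀ : D → R)
    (E : (D → R) → Finset D) (k : (D → R) → ℝ) (h0 : ∀ f, 0 ≤ k f) (h1 : ∀ f, k f ≤ 1)
    (hloc : ∀ f f', (∀ x ∈ E f, f' x = f x) → E f' = E f ∧ k f' = k f) :
    𝔼 w ∈ El (van S G), k (f₀ + w) ≤
      𝔼 w ∈ El S, k (f₀ + w) + 𝔼 w ∈ El S, (1 - ind (Ind S (E (f₀ + w)) G)) := by
  have a := ind_avg S G f₀ E (fun f => k f * ind (Ind S (E f) G))
    (fun f f' h => by
      obtain ⟨h3, h4⟩ := hloc f f' h
      exact ⟨h3, by simp only [h3, h4]⟩)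
    (fun f hf => by
      by_contra hcon
      exact hf (by simp only [ind_false hcon, mul_zero]))
  have b := ind_avg S G f₀ E (fun f => ind (Ind S (E f) G))
    (fun f f' h => by
      obtain ⟨h3, h4⟩ := hloc f f' h
      exact ⟨h3, by simp only [h3]⟩)
    (fun f hf => by
      by_contra hcon
      exact hf (ind_false hcon))
  have e1 : 𝔼 w ∈ El (van S G), k (f₀ + w) ≤ 𝔼 w ∈ El (van S G),
      (k (f₀ + w) * ind (Ind S (E (f₀ + w)) G) + (1 - ind (Ind S (E (f₀ + w)) G))) := by
    refine Finset.expect_le_expect fun w _ => ?_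
    have h2 := h0 (f₀ + w)
    have h3 := h1 (f₀ + w)
    have h4 := ind_nonneg (Ind S (E (f₀ + w)) G)
    have h5 := ind_le_one (Ind S (E (f₀ + w)) G)
    nlinarith
  have e2 : 𝔼 w ∈ El S, k (f₀ + w) * ind (Ind S (E (f₀ + w)) G) ≤ 𝔼 w ∈ El S, k (f₀ + w) := by
    refine Finset.expect_le_expect fun w _ => ?_
    have h2 := h0 (f₀ + w)
    have h4 := ind_nonneg (Ind S (E (f₀ + w)) G)
    have h5 := ind_le_one (Ind S (E (f₀ + w)) G)
    nlinarith
  rw [Finset.expect_add_distrib, Finset.expect_sub_distrib,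
    Finset.expect_const (El_nonempty _)] at e1
  rw [Finset.expect_sub_distrib, Finset.expect_const (El_nonempty _)]
  linarith

/-- the converse comparison -/
theorem ideal_le_real (S : Submodule K (D → R)) (G : Finset D) (f₀ : D → R)
    (E : (D → R) → Finset D) (k : (D → R) → ℝ) (h0 : ∀ f, 0 ≤ k f) (h1 : ∀ f, k f ≤ 1)
    (hloc : ∀ f f', (∀ x ∈ E f, f' x = f x) → E f' = E f ∧ k f' = k f) :
    𝔼 w ∈ El S, k (f₀ + w) ≤
      𝔼 w ∈ El (van S G), k (f₀ + w) + 𝔼 w ∈ El S, (1 - ind (Ind S (E (f₀ + w)) G)) := by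
  have h := real_le_ideal S G f₀ E (fun f => 1 - k f) (fun f => by linarith [h1 f])
    (fun f => by linarith [h0 f]) (fun f f' h => by
      obtain ⟨h3, h4⟩ := hloc f f' h
      exact ⟨h3, by simp only [h4]⟩)
  rw [Finset.expect_sub_distrib, Finset.expect_const (El_nonempty _),
    Finset.expect_sub_distrib, Finset.expect_const (El_nonempty _)] at h
  linarith

open Classical in
/-- the oracles in `W` that agree with `v` -/
noncomputable def cos (W : Submodule K (D → R)) (v : D → Option R) : Finset (D → R) :=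
  Finset.univ.filter fun f => f ∈ W ∧ Ext v f

theorem mem_cos {W : Submodule K (D → R)} {v : D → Option R} {f : D → R} :
    f ∈ cos W v ↔ f ∈ W ∧ Ext v f := by simp [cos]

theorem expect_cos {W : Submodule K (D → R)} {v : D → Option R} {f : D → R} (hf : f ∈ W)
    (hv : Ext v f) (F : (D → R) → ℝ) :
    𝔼 h ∈ cos W v, F h = 𝔼 w ∈ El (van W (dm v)), F (f + w) := by
  symm
  refine Finset.expect_nbij' (fun w => f + w) (fun h => h - f) ?_ ?_ ?_ ?_ ?_
  · intro w hw
    rw [mem_El] at hw
    rw [mem_cos]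
    exact ⟨W.add_mem hf hw.1, hv.congr fun x hx => by simp [hw.2 x hx]⟩
  · intro h hh
    rw [mem_cos] at hh
    rw [mem_El]
    refine ⟨W.sub_mem hh.1 hf, fun x hx => ?_⟩
    rw [Pi.sub_apply, hv.eq_on hh.2 x hx, sub_self]
  · intro w _
    exact add_sub_cancel_left f w
  · intro h _
    exact add_sub_cancel f h
  · intro w _
    rfl

/-- guessing the more likely of two values -/
theorem expect_majority {Z : Type} (N : Finset Z) (β : Z → Bool) (a : Bool → ℝ)
    (ha : ∀ b, 0 ≤ a b) (ha1 : a true + a false ≤ 1) (m : Bool)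
    (hm : 𝔼 z ∈ N, ind (β z = !m) ≤ 𝔼 z ∈ N, ind (β z = m)) :
    𝔼 z ∈ N, a (β z) ≤ 𝔼 z ∈ N, ind (m = β z) := by
  have h1 : ∀ z, a (β z) = a m * ind (β z = m) + a (!m) * ind (β z = !m) := by
    intro z
    cases hz : β z <;> cases m <;> simp [ind]
  have h2 : ∀ z, ind (m = β z) = ind (β z = m) := by
    intro z
    by_cases hz : m = β z
    · rw [ind_true hz, ind_true hz.symm]
    · rw [ind_false hz, ind_false fun h => hz h.symm]
  simp only [h1, h2]
  rw [Finset.expect_add_distrib, ← Finset.mul_expect, ← Finset.mul_expect]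
  have h3 : 0 ≤ 𝔼 z ∈ N, ind (β z = m) := Finset.expect_nonneg fun _ _ => ind_nonneg _
  have h4 : a m + a (!m) ≤ 1 := by
    cases m
    · simpa [add_comm] using ha1
    · simpa using ha1
  have h5 := ha (!m)
  nlinarith [mul_le_mul_of_nonneg_left hm h5, mul_le_mul_of_nonneg_right h4 h3]

/-- knowledge is determined by the answers at the learned points -/
theorem know_congr {Z O : Type} (W : Submodule K (D → R)) (P : Finset Z) (F : Z → D → R)
    (Q : Z → Finset D) (obs : Z → O) (n : ℕ) {o : O} {f f' : D → R} {v : D → Option R} (t : ℕ)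
    (h' : ∀ x ∈ dm (know W P F Q obs n o f v t), f' x = f x) :
    know W P F Q obs n o f' v t = know W P F Q obs n o f v t := by
  induction t with
  | zero => rfl
  | succ t ih =>
    rw [know_succ] at h'
    rw [dm_upd] at h'
    have h1 := ih fun x hx => h' x (Finset.mem_union_left _ hx)
    rw [know_succ, know_succ, h1]
    exact upd_congr fun x hx => h' x (Finset.mem_union_right _ hx)

namespace PKE

variable {PK SK C ΩG ΩE ΩD : Type} [Fintype ΩG] [Fintype ΩE] [Fintype ΩD]
variable (S : PKE D R PK SK C ΩG ΩE ΩD) (W : Submodule K (D → R))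

/-- worlds of key generation -/
noncomputable def P1 (ΩG : Type) [Fintype ΩG] (W : Submodule K (D → R)) :
    Finset ((D → R) × ΩG) := El W ×ˢ Finset.univ

/-- queries of key generation -/
def Q1 (z : (D → R) × ΩG) : Finset D := (S.gen z.2).queries z.1

/-- the public key -/
def o1 (z : (D → R) × ΩG) : PK := ((S.gen z.2).run z.1).1

/-- worlds of encryption -/
noncomputable def P2 (ΩE : Type) [Fintype ΩE] (W : Submodule K (D → R)) :
    Finset ((D → R) × (Bool × ΩE)) := El W ×ˢ Finset.univ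

/-- queries of encryption -/
def Q2 (pk : PK) (z : (D → R) × (Bool × ΩE)) : Finset D :=
  (S.enc pk z.2.1 z.2.2).queries z.1

/-- the ciphertext -/
def o2 (pk : PK) (z : (D → R) × (Bool × ΩE)) : C := (S.enc pk z.2.1 z.2.2).run z.1

variable (n₁ t₁ n₂ : ℕ) (τ : PK → (D → Option R) → ℕ)

/-- what is learned from the public key -/
noncomputable def k1 (pk : PK) (f : D → R) : D → Option R :=
  know W (P1 ΩG W) Prod.fst S.Q1 S.o1 n₁ pk f (fun _ => none) t₁

/-- what is learned from the ciphertext -/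
noncomputable def k2 (pk : PK) (v : D → Option R) (c : C) (f : D → R) : D → Option R :=
  know W (P2 ΩE W) Prod.fst (S.Q2 pk) (S.o2 pk) n₂ c f v (τ pk v)

/-- expected captures -/
noncomputable def c1 (pk : PK) (v : D → Option R) : ℝ :=
  cap W (P1 ΩG W) Prod.fst S.Q1 S.o1 n₁ pk v

/-- expected captures -/
noncomputable def c2 (pk : PK) (c : C) (v : D → Option R) : ℝ :=
  cap W (P2 ΩE W) Prod.fst (S.Q2 pk) (S.o2 pk) n₂ c v

/-- worlds compatible with the ciphertext and the knowledge -/
noncomputable def N2 (pk : PK) (c : C) (v : D → Option R) : Finset ((D → R) × (Bool × ΩE)) :=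
  cell (P2 ΩE W) Prod.fst (S.o2 pk) c v

open Classical in
/-- the more likely plaintext -/
noncomputable def ml (pk : PK) (c : C) (v : D → Option R) : Bool :=
  decide (𝔼 z ∈ S.N2 W pk c v, ind (z.2.1 = false) ≤ 𝔼 z ∈ S.N2 W pk c v, ind (z.2.1 = true))

theorem ml_spec (pk : PK) (c : C) (v : D → Option R) :
    𝔼 z ∈ S.N2 W pk c v, ind (z.2.1 = !(S.ml W pk c v)) ≤
      𝔼 z ∈ S.N2 W pk c v, ind (z.2.1 = S.ml W pk c v) := by
  by_cases h : 𝔼 z ∈ S.N2 W pk c v, ind (z.2.1 = false) ≤ 𝔼 z ∈ S.N2 W pk c v, ind (z.2.1 = true)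
  · have h1 : S.ml W pk c v = true := by simp [ml, h]
    rw [h1]
    exact h
  · have h1 : S.ml W pk c v = false := by simp only [ml, h, decide_false]
    rw [h1]
    push Not at h
    exact h.le

/-- the points exposed by encryption and by the learning that follows it -/
noncomputable def A2 (pk : PK) (v : D → Option R) (b : Bool) (e : ΩE) (h : D → R) : Finset D :=
  (S.enc pk b e).queries h ∪ dm (S.k2 W n₂ τ pk v ((S.enc pk b e).run h) h)

theorem A2_local (pk : PK) (v : D → Option R) (b : Bool) (e : ΩE) (h h' : D → R)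
    (hh : ∀ x ∈ S.A2 W n₂ τ pk v b e h, h' x = h x) :
    (S.enc pk b e).run h' = (S.enc pk b e).run h ∧
      (S.enc pk b e).queries h' = (S.enc pk b e).queries h ∧
      S.k2 W n₂ τ pk v ((S.enc pk b e).run h) h' = S.k2 W n₂ τ pk v ((S.enc pk b e).run h) h ∧
      S.A2 W n₂ τ pk v b e h' = S.A2 W n₂ τ pk v b e h := by
  obtain ⟨h1, h2⟩ := QAlg.local_run (S.enc pk b e) fun x hx =>
    hh x (Finset.mem_union_left _ hx)
  have h3 : S.k2 W n₂ τ pk v ((S.enc pk b e).run h) h' =
      S.k2 W n₂ τ pk v ((S.enc pk b e).run h) h :=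
    know_congr W _ _ _ _ _ _ fun x hx => hh x (Finset.mem_union_right _ hx)
  refine ⟨h1, h2, h3, ?_⟩
  rw [A2, A2, h1, h2, h3]

/-- ideal success probability of decryption, given the exposed answers -/
noncomputable def sc (f : D → R) (G : Finset D) (sk : SK) (c : C) (v' : D → Option R)
    (b : Bool) : ℝ :=
  𝔼 h ∈ cos W (upd G f v'), 𝔼 d : ΩD, ind ((S.dec sk c d).run h = b)

/-- probability that decryption is not independent of encryption -/
noncomputable def bd (f : D → R) (G : Finset D) (sk : SK) (c : C) (v' : D → Option R)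
    (B : Finset D) : ℝ :=
  𝔼 h ∈ cos W (upd G f v'), 𝔼 d : ΩD,
    (1 - ind (Ind (van W (dm v' ∪ G)) ((S.dec sk c d).queries h) B))

theorem sc_nonneg (f : D → R) (G : Finset D) (sk : SK) (c : C) (v' : D → Option R)
    (b : Bool) : 0 ≤ S.sc W f G sk c v' b :=
  Finset.expect_nonneg fun _ _ => Finset.expect_nonneg fun _ _ => ind_nonneg _

theorem bd_nonneg (f : D → R) (G : Finset D) (sk : SK) (c : C) (v' : D → Option R)
    (B : Finset D) : 0 ≤ S.bd W f G sk c v' B :=
  Finset.expect_nonneg fun _ _ => Finset.expect_nonneg fun _ _ =>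
    sub_nonneg.mpr (ind_le_one _)

theorem sc_add_le_one (f : D → R) (G : Finset D) (sk : SK) (c : C) (v' : D → Option R) :
    S.sc W f G sk c v' true + S.sc W f G sk c v' false ≤ 1 := by
  rw [sc, sc, ← Finset.expect_add_distrib]
  refine expect_mem_le_one _ fun h _ => ?_
  rw [← Finset.expect_add_distrib]
  refine expect_mem_le_one _ fun d _ => ?_
  cases (S.dec sk c d).run h <;> simp [ind]

/-- first step: the real world, given the exposed answers of key generation and of the first
learning phase, is bounded by an ideal value that is local to encryption and to the second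
learning phase -/
theorem step_real {pk : PK} {sk : SK} {v : D → Option R} {f : D → R} (hf : f ∈ W)
    (hv : Ext v f) (G : Finset D) (b : Bool) (e : ΩE) :
    𝔼 w ∈ El (van (van W (dm v)) G), 𝔼 d : ΩD,
      ind ((S.dec sk ((S.enc pk b e).run (f + w)) d).run (f + w) = b) ≤
    𝔼 w ∈ El (van (van W (dm v)) G), min 1
      (S.sc W f G sk ((S.enc pk b e).run (f + w))
        (S.k2 W n₂ τ pk v ((S.enc pk b e).run (f + w)) (f + w)) b +
      S.bd W f G sk ((S.enc pk b e).run (f + w))
        (S.k2 W n₂ τ pk v ((S.enc pk b e).run (f + w)) (f + w))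
        ((S.enc pk b e).queries (f + w))) := by
  rw [resample (van (van W (dm v)) G) f (S.A2 W n₂ τ pk v b e)
    (fun f f' h => (S.A2_local W n₂ τ pk v b e f f' h).2.2.2)
    (fun g h => 𝔼 d : ΩD, ind ((S.dec sk ((S.enc pk b e).run g) d).run h = b))
    (fun f f' h hh => by
      have := (S.A2_local W n₂ τ pk v b e f f' hh).1
      simp only [this])]
  refine Finset.expect_le_expect fun w hw => ?_
  rw [mem_El] at hw
  set h := f + w with hdef
  set c := (S.enc pk b e).run h with hc
  set v' := S.k2 W n₂ τ pk v c h with hv'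
  refine le_min (expect_mem_le_one _ fun u _ => expect_mem_le_one _ fun d _ => ind_le_one _) ?_
  -- the known part
  have hhW : h ∈ W := W.add_mem hf hw.1.1
  have hvh : Ext v h := hv.congr fun x hx => by simp [hdef, hw.1.2 x hx]
  have hv'h : Ext v' h := know_ext W _ _ _ _ _ hvh _
  have hsub : dm v ⊆ dm v' := dm_subset_know W _ _ _ _ _ _ _ _ _
  have hG : ∀ x ∈ G, h x = f x := fun x hx => by simp [hdef, hw.2 x hx]
  have hupd : Ext (upd G f v') h := by
    intro x y hxy
    by_cases hx : x ∈ G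
    · rw [hG x hx]
      simpa [upd, hx] using hxy
    · exact hv'h x y (by simpa [upd, hx] using hxy)
  have hA2 : van (van (van W (dm v)) G) (S.A2 W n₂ τ pk v b e h) =
      van (van W (dm v' ∪ G)) ((S.enc pk b e).queries h) := by
    simp only [van_van]
    congr 1
    ext x
    have h1 : x ∈ dm v → x ∈ dm v' := fun hx => hsub hx
    have h2 : x ∈ S.A2 W n₂ τ pk v b e h ↔ x ∈ (S.enc pk b e).queries h ∨ x ∈ dm v' := by
      rw [A2, Finset.mem_union]
    simp only [Finset.mem_union, h2]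
    tauto
  rw [hA2]
  have hsc : S.sc W f G sk c v' b =
      𝔼 u ∈ El (van W (dm v' ∪ G)), 𝔼 d : ΩD, ind ((S.dec sk c d).run (h + u) = b) := by
    rw [sc, expect_cos hhW hupd, dm_upd]
  have hbd : S.bd W f G sk c v' ((S.enc pk b e).queries h) =
      𝔼 u ∈ El (van W (dm v' ∪ G)), 𝔼 d : ΩD,
        (1 - ind (Ind (van W (dm v' ∪ G)) ((S.dec sk c d).queries (h + u))
          ((S.enc pk b e).queries h))) := by
    rw [bd, expect_cos hhW hupd, dm_upd]
  rw [hsc, hbd, Finset.expect_comm, Finset.expect_comm (s := El (van W (dm v' ∪ G))),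
    Finset.expect_comm (s := El (van W (dm v' ∪ G))), ← Finset.expect_add_distrib]
  refine Finset.expect_le_expect fun d _ => ?_
  exact real_le_ideal (van W (dm v' ∪ G)) ((S.enc pk b e).queries h) h
    (fun g => (S.dec sk c d).queries g) (fun g => ind ((S.dec sk c d).run g = b))
    (fun _ => ind_nonneg _) (fun _ => ind_le_one _)
    (fun g g' hg => by
      obtain ⟨h1, h2⟩ := QAlg.local_run (S.dec sk c d) hg
      exact ⟨h2, by rw [h1]⟩)

/-- the worlds of encryption compatible with `v` -/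
theorem expect_start2 {v : D → Option R} {f : D → R} (hf : f ∈ W) (hv : Ext v f)
    (F : (D → R) × (Bool × ΩE) → ℝ) :
    𝔼 z ∈ start (P2 ΩE W) Prod.fst v, F z =
      𝔼 b : Bool, 𝔼 e : ΩE, 𝔼 w ∈ El (van W (dm v)), F (f + w, (b, e)) := by
  classical
  have h1 : start (P2 ΩE W) Prod.fst v = cos W v ×ˢ (Finset.univ : Finset (Bool × ΩE)) := by
    ext ⟨h, x⟩
    simp only [start, P2, Finset.mem_filter, Finset.mem_product, Finset.mem_univ, and_true,
      mem_El, mem_cos]
  rw [h1, Finset.expect_product, expect_cos hf hv, Finset.expect_comm,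
    ← Finset.univ_product_univ, Finset.expect_product]

/-- second step -/
theorem step_ideal {pk : PK} {sk : SK} {v : D → Option R} {f : D → R} (hf : f ∈ W)
    (hv : Ext v f) (G : Finset D) :
    𝔼 b : Bool, 𝔼 e : ΩE, 𝔼 w ∈ El (van (van W (dm v)) G), 𝔼 d : ΩD,
      ind ((S.dec sk ((S.enc pk b e).run (f + w)) d).run (f + w) = b) ≤
    𝔼 z ∈ start (P2 ΩE W) Prod.fst v,
      S.sc W f G sk (S.o2 pk z) (S.k2 W n₂ τ pk v (S.o2 pk z) z.1) z.2.1 +
    𝔼 z ∈ start (P2 ΩE W) Prod.fst v,
      S.bd W f G sk (S.o2 pk z) (S.k2 W n₂ τ pk v (S.o2 pk z) z.1) (S.Q2 pk z) +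
    𝔼 z ∈ start (P2 ΩE W) Prod.fst v, mi (van W (dm v)) G
      (S.Q2 pk z ∪ dm (S.k2 W n₂ τ pk v (S.o2 pk z) z.1)) := by
  rw [← Finset.expect_add_distrib, ← Finset.expect_add_distrib, expect_start2 W hf hv]
  refine Finset.expect_le_expect fun b _ => Finset.expect_le_expect fun e _ => ?_
  refine (S.step_real W n₂ τ hf hv G b e).trans ?_
  refine (real_le_ideal (van W (dm v)) G f (S.A2 W n₂ τ pk v b e)
    (fun h => min 1 (S.sc W f G sk ((S.enc pk b e).run h)
        (S.k2 W n₂ τ pk v ((S.enc pk b e).run h) h) b +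
      S.bd W f G sk ((S.enc pk b e).run h)
        (S.k2 W n₂ τ pk v ((S.enc pk b e).run h) h)
        ((S.enc pk b e).queries h)))
    (fun h => le_min zero_le_one
      (add_nonneg (S.sc_nonneg W _ _ _ _ _ _) (S.bd_nonneg W _ _ _ _ _ _)))
    (fun h => min_le_left _ _)
    (fun h h' hh => by
      obtain ⟨h1, h2, h3, h4⟩ := S.A2_local W n₂ τ pk v b e h h' hh
      refine ⟨h4, ?_⟩
      simp only [h1, h2, h3])).trans ?_
  rw [← Finset.expect_add_distrib]
  refine Finset.expect_le_expect fun w _ => ?_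
  refine add_le_add (min_le_right _ _) ?_
  rw [mi_comm]
  exact one_sub_ind_le_mi _ _ _

/-- third step: guessing the more likely plaintext is at least as good -/
theorem step_ml (pk : PK) (sk : SK) (v : D → Option R) (f : D → R) (G : Finset D) :
    𝔼 z ∈ start (P2 ΩE W) Prod.fst v,
      S.sc W f G sk (S.o2 pk z) (S.k2 W n₂ τ pk v (S.o2 pk z) z.1) z.2.1 ≤
    𝔼 z ∈ start (P2 ΩE W) Prod.fst v,
      ind (S.ml W pk (S.o2 pk z) (S.k2 W n₂ τ pk v (S.o2 pk z) z.1) = z.2.1) := by
  classical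
  rw [expect_cells (start (P2 ΩE W) Prod.fst v)
      (fun z => (S.o2 pk z, S.k2 W n₂ τ pk v (S.o2 pk z) z.1))
      (fun z => S.sc W f G sk (S.o2 pk z) (S.k2 W n₂ τ pk v (S.o2 pk z) z.1) z.2.1),
    expect_cells (start (P2 ΩE W) Prod.fst v)
      (fun z => (S.o2 pk z, S.k2 W n₂ τ pk v (S.o2 pk z) z.1))
      (fun z => ind (S.ml W pk (S.o2 pk z) (S.k2 W n₂ τ pk v (S.o2 pk z) z.1) = z.2.1))]
  refine Finset.expect_le_expect fun z hz => ?_
  have hcell := filter_view_eq_cell W (P2 ΩE W) Prod.fst (S.Q2 pk) (S.o2 pk) n₂ v (τ pk v) hz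
  set c := S.o2 pk z with hc
  set v' := S.k2 W n₂ τ pk v c z.1 with hv'
  have e1 : 𝔼 z' ∈ (start (P2 ΩE W) Prod.fst v).filter (fun z' =>
      (S.o2 pk z', S.k2 W n₂ τ pk v (S.o2 pk z') z'.1) = (c, v')),
      S.sc W f G sk (S.o2 pk z') (S.k2 W n₂ τ pk v (S.o2 pk z') z'.1) z'.2.1 =
      𝔼 z' ∈ S.N2 W pk c v', S.sc W f G sk c v' z'.2.1 := by
    refine Finset.expect_congr ?_ fun z' hz' => ?_
    · exact hcell
    · rw [N2, hv', k2, ← hcell] at hz'
      have h2 := (Finset.mem_filter.mp hz').2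
      simp only [Prod.mk.injEq] at h2
      have h3 : S.k2 W n₂ τ pk v (S.o2 pk z') z'.1 = v' := h2.2
      rw [h3, h2.1]
  have e2 : 𝔼 z' ∈ (start (P2 ΩE W) Prod.fst v).filter (fun z' =>
      (S.o2 pk z', S.k2 W n₂ τ pk v (S.o2 pk z') z'.1) = (c, v')),
      ind (S.ml W pk (S.o2 pk z') (S.k2 W n₂ τ pk v (S.o2 pk z') z'.1) = z'.2.1) =
      𝔼 z' ∈ S.N2 W pk c v', ind (S.ml W pk c v' = z'.2.1) := by
    refine Finset.expect_congr ?_ fun z' hz' => ?_
    · exact hcell
    · rw [N2, hv', k2, ← hcell] at hz'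
      have h2 := (Finset.mem_filter.mp hz').2
      simp only [Prod.mk.injEq] at h2
      have h3 : S.k2 W n₂ τ pk v (S.o2 pk z') z'.1 = v' := h2.2
      rw [h3, h2.1]
  rw [e1, e2]
  exact expect_majority (S.N2 W pk c v') (fun z => z.2.1) (fun b => S.sc W f G sk c v' b)
    (fun b => S.sc_nonneg W _ _ _ _ _ _) (S.sc_add_le_one W _ _ _ _ _) _
    (S.ml_spec W pk c v')

/-- fourth step: back to the real world -/
theorem step_back {pk : PK} {v : D → Option R} {f : D → R} (hf : f ∈ W)
    (hv : Ext v f) (G : Finset D) :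
    𝔼 z ∈ start (P2 ΩE W) Prod.fst v,
      ind (S.ml W pk (S.o2 pk z) (S.k2 W n₂ τ pk v (S.o2 pk z) z.1) = z.2.1) ≤
    𝔼 b : Bool, 𝔼 e : ΩE, 𝔼 w ∈ El (van (van W (dm v)) G),
      ind (S.ml W pk ((S.enc pk b e).run (f + w))
        (S.k2 W n₂ τ pk v ((S.enc pk b e).run (f + w)) (f + w)) = b) +
    𝔼 z ∈ start (P2 ΩE W) Prod.fst v, mi (van W (dm v)) G
      (S.Q2 pk z ∪ dm (S.k2 W n₂ τ pk v (S.o2 pk z) z.1)) := by
  rw [expect_start2 W hf hv, expect_start2 W hf hv, ← Finset.expect_add_distrib]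
  refine Finset.expect_le_expect fun b _ => ?_
  rw [← Finset.expect_add_distrib]
  refine Finset.expect_le_expect fun e _ => ?_
  refine (ideal_le_real (van W (dm v)) G f (S.A2 W n₂ τ pk v b e)
    (fun h => ind (S.ml W pk ((S.enc pk b e).run h)
        (S.k2 W n₂ τ pk v ((S.enc pk b e).run h) h) = b))
    (fun h => ind_nonneg _) (fun h => ind_le_one _)
    (fun h h' hh => by
      obtain ⟨h1, h2, h3, h4⟩ := S.A2_local W n₂ τ pk v b e h h' hh
      refine ⟨h4, ?_⟩
      simp only [h1, h3])).trans ?_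
  refine add_le_add le_rfl (Finset.expect_le_expect fun w _ => ?_)
  rw [mi_comm]
  exact one_sub_ind_le_mi _ _ _

end PKE

end Pool.Agent.ALG70
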