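import Pool.Agent.ALG70.Main

/-!
# The attack: the error terms, the adversary, conclusion
-/

set_option autoImplicit false
set_option linter.unusedSectionVars false

open scoped BigOperators

namespace Pool.Agent.ALG70

open Pool.Agent.PKE70

variable {K D R : Type} [Ring K] [AddCommGroup R] [Module K R]
variable [DecidableEq D] [Fintype D] [Fintype R]

/-- averaging over what the learner does not know -/
theorem expect_view {Z O : Type} (W : Submodule K (D → R)) (P : Finset Z) (F : Z → D → R)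
    (Q : Z → Finset D) (obs : Z → O) (n : ℕ) (v : D → Option R) (t : ℕ)
    (H : O → (D → Option R) → Z → ℝ) :
    𝔼 z ∈ start P F v, H (obs z) (know W P F Q obs n (obs z) (F z) v t) z =
      𝔼 z ∈ start P F v, 𝔼 z' ∈ cell P F obs (obs z) (know W P F Q obs n (obs z) (F z) v t),
        H (obs z) (know W P F Q obs n (obs z) (F z) v t) z' := by
  classical
  rw [expect_start W P F Q obs n v t]
  refine Finset.expect_congr rfl fun z hz => Finset.expect_congr rfl fun z' hz' => ?_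
  rw [← filter_view_eq_cell W P F Q obs n v t hz] at hz'
  have h2 := (Finset.mem_filter.mp hz').2
  simp only [Prod.mk.injEq] at h2
  rw [h2.2, h2.1]

theorem hh_union_known (W : Submodule K (D → R)) (U A Y : Finset D) :
    hh (van W U) (A ∪ (U ∪ Y)) = hh (van W U) (A ∪ Y) := by
  rw [hh, hh, van_van, van_van]
  have h : U ∪ (A ∪ (U ∪ Y)) = U ∪ (A ∪ Y) := by
    ext x
    simp only [Finset.mem_union]
    tauto
  rw [h]

namespace PKE

variable {PK SK C ΩG ΩE ΩD : Type} [Fintype ΩG] [Fintype ΩE] [Fintype ΩD]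
variable (S : PKE D R PK SK C ΩG ΩE ΩD) (W : Submodule K (D → R))
variable (n₁ t₁ n₂ : ℕ) (τ : PK → (D → Option R) → ℕ)

/-- the queries of decryption are nearly independent of those of encryption -/
theorem bad2 {q r k₂ T₂ : ℕ} (hr : Module.length K R ≤ r) (hq : S.QueryBound q) (hk : 0 < k₂)
    (hn : k₂ * q ≤ n₂) {pk : PK} {v : D → Option R}
    (hτ : 𝔼 z ∈ start (P2 ΩE W) Prod.fst v,
      S.c2 W n₂ pk (S.o2 pk z) (S.k2 W n₂ τ pk v (S.o2 pk z) z.1) ≤ (r * q : ℝ) / T₂)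
    (f : D → R) {G : Finset D} (hG : G.card ≤ q) (sk : SK) :
    𝔼 z ∈ start (P2 ΩE W) Prod.fst v,
      S.bd W f G sk (S.o2 pk z) (S.k2 W n₂ τ pk v (S.o2 pk z) z.1) (S.Q2 pk z) ≤
    (r * q : ℝ) / T₂ + 2 * r * q / k₂ := by
  have hkr : (0 : ℝ) < k₂ := by exact_mod_cast hk
  set H : C → (D → Option R) → (D → R) × (Bool × ΩE) → ℝ := fun c v' z =>
    𝔼 h ∈ cos W (upd G f v'), 𝔼 d : ΩD,
      mi (van W (dm v')) (S.Q2 pk z) (G ∪ (S.dec sk c d).queries h) with hH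
  have h1 : 𝔼 z ∈ start (P2 ΩE W) Prod.fst v,
      S.bd W f G sk (S.o2 pk z) (S.k2 W n₂ τ pk v (S.o2 pk z) z.1) (S.Q2 pk z) ≤
      𝔼 z ∈ start (P2 ΩE W) Prod.fst v,
        H (S.o2 pk z) (S.k2 W n₂ τ pk v (S.o2 pk z) z.1) z := by
    refine Finset.expect_le_expect fun z _ => Finset.expect_le_expect fun h _ =>
      Finset.expect_le_expect fun d _ => ?_
    refine (one_sub_ind_le_mi _ _ _).trans ?_
    rw [mi_comm, ← van_van]
    exact mi_van_le_union _ _ _ _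
  refine h1.trans ?_
  have h2 := expect_view W (P2 ΩE W) Prod.fst (S.Q2 pk) (S.o2 pk) n₂ v (τ pk v) H
  have h3 : 𝔼 z ∈ start (P2 ΩE W) Prod.fst v,
        H (S.o2 pk z) (S.k2 W n₂ τ pk v (S.o2 pk z) z.1) z =
      𝔼 z ∈ start (P2 ΩE W) Prod.fst v,
        𝔼 z' ∈ S.N2 W pk (S.o2 pk z) (S.k2 W n₂ τ pk v (S.o2 pk z) z.1),
          H (S.o2 pk z) (S.k2 W n₂ τ pk v (S.o2 pk z) z.1) z' := h2
  rw [h3]
  have h4 : 𝔼 z ∈ start (P2 ΩE W) Prod.fst v,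
        𝔼 z' ∈ S.N2 W pk (S.o2 pk z) (S.k2 W n₂ τ pk v (S.o2 pk z) z.1),
          H (S.o2 pk z) (S.k2 W n₂ τ pk v (S.o2 pk z) z.1) z' ≤
      𝔼 z ∈ start (P2 ΩE W) Prod.fst v,
        (S.c2 W n₂ pk (S.o2 pk z) (S.k2 W n₂ τ pk v (S.o2 pk z) z.1) + 2 * r * q / k₂) := by
    refine Finset.expect_le_expect fun z _ => ?_
    set c := S.o2 pk z
    set v' := S.k2 W n₂ τ pk v c z.1
    have hnn : 0 ≤ S.c2 W n₂ pk c v' + 2 * r * q / k₂ :=
      add_nonneg (cap_nonneg W _ _ _ _ _ _ _) (by positivity)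
    have h5 : 𝔼 z' ∈ S.N2 W pk c v', H c v' z' =
        𝔼 h ∈ cos W (upd G f v'), 𝔼 d : ΩD, 𝔼 z' ∈ S.N2 W pk c v',
          mi (van W (dm v')) (S.Q2 pk z') (G ∪ (S.dec sk c d).queries h) := by
      simp only [hH]
      rw [Finset.expect_comm]
      refine Finset.expect_congr rfl fun h _ => ?_
      rw [Finset.expect_comm]
    rw [h5]
    refine le_trans (Finset.expect_le_expect fun h _ => le_trans
      (Finset.expect_le_expect (g := fun _ => S.c2 W n₂ pk c v' + 2 * r * q / k₂) fun d _ => ?_)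
      (expect_const_le _ hnn)) (expect_const_le _ hnn)
    refine (light W (P2 ΩE W) Prod.fst (S.Q2 pk) (S.o2 pk) n₂
      (fun z _ => (QAlg.card_queries_le _ _).trans (hq.2.1 _ _ _ _)) hk hn c v' _).trans ?_
    refine add_le_add le_rfl ?_
    rw [div_le_div_iff_of_pos_right hkr]
    refine (hh_le _ _ hr).trans ?_
    have h6 : (G ∪ (S.dec sk c d).queries h).card ≤ 2 * q := by
      have h7 := Finset.card_union_le G ((S.dec sk c d).queries h)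
      have h8 := (QAlg.card_queries_le h (S.dec sk c d)).trans (hq.2.2 _ _ _ _)
      omega
    have h9 : ((G ∪ (S.dec sk c d).queries h).card : ℝ) ≤ 2 * q := by exact_mod_cast h6
    calc (r : ℝ) * ((G ∪ (S.dec sk c d).queries h).card : ℝ) ≤ r * (2 * q) := by gcongr
      _ = 2 * r * q := by ring
  refine h4.trans ?_
  rw [Finset.expect_add_distrib]
  exact add_le_add hτ (expect_const_le _ (by positivity))

/-- the first error term -/
noncomputable def e1 (z : (D → R) × ΩG) : ℝ :=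
  𝔼 y ∈ start (P2 ΩE W) Prod.fst (S.k1 W n₁ t₁ (S.o1 z) z.1),
    mi (van W (dm (S.k1 W n₁ t₁ (S.o1 z) z.1))) (S.Q1 z) (S.Q2 (S.o1 z) y ∪
      dm (S.k2 W n₂ τ (S.o1 z) (S.k1 W n₁ t₁ (S.o1 z) z.1) (S.o2 (S.o1 z) y) y.1))

theorem start_none : start (P1 ΩG W) Prod.fst (fun _ : D => (none : Option R)) = P1 ΩG W := by
  classical
  unfold start
  rw [Finset.filter_eq_self]
  exact fun z _ => ext_none z.1

/-- the queries of encryption and of the second learning phase are nearly independent of those of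
key generation -/
theorem bad1 {q r k₁ T₁ T₂ : ℕ} (hr : Module.length K R ≤ r) (hq : S.QueryBound q) (hk : 0 < k₁)
    (hn : k₁ * q ≤ n₁) (hτ : ∀ pk v, τ pk v ≤ T₂)
    (ht : 𝔼 z ∈ P1 ΩG W, S.c1 W n₁ (S.o1 z) (S.k1 W n₁ t₁ (S.o1 z) z.1) ≤ (r * q : ℝ) / T₁) :
    𝔼 z ∈ P1 ΩG W, S.e1 W n₁ t₁ n₂ τ z ≤ (r * q : ℝ) / T₁ + r * (q + T₂ * n₂) / k₁ := by
  have hkr : (0 : ℝ) < k₁ := by exact_mod_cast hk
  set H : PK → (D → Option R) → (D → R) × ΩG → ℝ := fun pk v z =>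
    𝔼 y ∈ start (P2 ΩE W) Prod.fst v, mi (van W (dm v)) (S.Q1 z) (S.Q2 pk y ∪
      dm (S.k2 W n₂ τ pk v (S.o2 pk y) y.1)) with hH
  have h2 := expect_view W (P1 ΩG W) Prod.fst S.Q1 S.o1 n₁ (fun _ => none) t₁ H
  rw [start_none] at h2
  have h3 : 𝔼 z ∈ P1 ΩG W, S.e1 W n₁ t₁ n₂ τ z =
      𝔼 z ∈ P1 ΩG W, 𝔼 z' ∈ cell (P1 ΩG W) Prod.fst S.o1 (S.o1 z) (S.k1 W n₁ t₁ (S.o1 z) z.1),
        H (S.o1 z) (S.k1 W n₁ t₁ (S.o1 z) z.1) z' := h2
  rw [h3]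
  have h4 : 𝔼 z ∈ P1 ΩG W,
      𝔼 z' ∈ cell (P1 ΩG W) Prod.fst S.o1 (S.o1 z) (S.k1 W n₁ t₁ (S.o1 z) z.1),
        H (S.o1 z) (S.k1 W n₁ t₁ (S.o1 z) z.1) z' ≤
      𝔼 z ∈ P1 ΩG W, (S.c1 W n₁ (S.o1 z) (S.k1 W n₁ t₁ (S.o1 z) z.1) +
        r * (q + T₂ * n₂) / k₁) := by
    refine Finset.expect_le_expect fun z _ => ?_
    set pk := S.o1 z
    set v := S.k1 W n₁ t₁ pk z.1
    have hnn : 0 ≤ S.c1 W n₁ pk v + r * (q + T₂ * n₂) / k₁ :=
      add_nonneg (cap_nonneg W _ _ _ _ _ _ _) (by positivity)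
    simp only [hH]
    rw [Finset.expect_comm]
    refine le_trans (Finset.expect_le_expect
      (g := fun _ => S.c1 W n₁ pk v + r * (q + T₂ * n₂) / k₁) fun y _ => ?_)
      (expect_const_le _ hnn)
    refine (light W (P1 ΩG W) Prod.fst S.Q1 S.o1 n₁
      (fun z _ => (QAlg.card_queries_le _ _).trans (hq.1 _ _)) hk hn pk v _).trans ?_
    refine add_le_add le_rfl ?_
    rw [div_le_div_iff_of_pos_right hkr]
    obtain ⟨Y, hY1, hY2⟩ := know_dm W (P2 ΩE W) Prod.fst (S.Q2 pk) (S.o2 pk) n₂ (S.o2 pk y) y.1 v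
      (τ pk v)
    rw [k2, hY2, hh_union_known]
    refine (hh_le _ _ hr).trans ?_
    have h6 : (S.Q2 pk y ∪ Y).card ≤ q + T₂ * n₂ := by
      have h7 := Finset.card_union_le (S.Q2 pk y) Y
      have h8 : (S.Q2 pk y).card ≤ q := (QAlg.card_queries_le _ _).trans (hq.2.1 _ _ _ _)
      have h9 := hY1.trans (Nat.mul_le_mul_right n₂ (hτ pk v))
      omega
    have h9 : ((S.Q2 pk y ∪ Y).card : ℝ) ≤ q + T₂ * n₂ := by exact_mod_cast h6
    gcongr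
  refine h4.trans ?_
  rw [Finset.expect_add_distrib]
  exact add_le_add ht (expect_const_le _ (by positivity))

/-- the points exposed by key generation and the first learning phase -/
noncomputable def A1 (ω : ΩG) (f : D → R) : Finset D :=
  dm (S.k1 W n₁ t₁ (S.o1 (f, ω)) f) ∪ S.Q1 (f, ω)

theorem A1_local (ω : ΩG) (f f' : D → R) (h : ∀ x ∈ S.A1 W n₁ t₁ ω f, f' x = f x) :
    (S.gen ω).run f' = (S.gen ω).run f ∧ S.Q1 (f', ω) = S.Q1 (f, ω) ∧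
      S.k1 W n₁ t₁ (S.o1 (f', ω)) f' = S.k1 W n₁ t₁ (S.o1 (f, ω)) f := by
  obtain ⟨h1, h2⟩ := QAlg.local_run (S.gen ω) (f := f) (f' := f') fun x hx =>
    h x (Finset.mem_union_right _ hx)
  have h3 : S.o1 (f', ω) = S.o1 (f, ω) := by simp only [o1, h1]
  refine ⟨h1, h2, ?_⟩
  rw [h3]
  exact know_congr W _ _ _ _ _ _ fun x hx => h x (Finset.mem_union_left _ hx)

/-- resampling the oracle outside the points exposed by key generation and the first learning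
phase -/
theorem resample1 (ω : ΩG) (F : PK → SK → (D → Option R) → (D → R) → ℝ) :
    𝔼 f ∈ El W, F ((S.gen ω).run f).1 ((S.gen ω).run f).2 (S.k1 W n₁ t₁ (S.o1 (f, ω)) f) f =
    𝔼 f ∈ El W, 𝔼 w ∈ El (van (van W (dm (S.k1 W n₁ t₁ (S.o1 (f, ω)) f))) (S.Q1 (f, ω))),
      F ((S.gen ω).run f).1 ((S.gen ω).run f).2 (S.k1 W n₁ t₁ (S.o1 (f, ω)) f) (f + w) := by
  have h := resample W 0 (S.A1 W n₁ t₁ ω)
    (fun f f' h => by
      obtain ⟨-, h2, h3⟩ := S.A1_local W n₁ t₁ ω f f' h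
      rw [A1, A1, h2, h3])
    (fun g h => F ((S.gen ω).run g).1 ((S.gen ω).run g).2 (S.k1 W n₁ t₁ (S.o1 (g, ω)) g) h)
    (fun f f' g h => by
      obtain ⟨h1, -, h3⟩ := S.A1_local W n₁ t₁ ω f f' h
      simp only [h1, h3])
  simp only [zero_add] at h
  rw [h]
  refine Finset.expect_congr rfl fun f _ => ?_
  rw [van_van, A1]

/-- the success probability of the adversary -/
noncomputable def advE : ℝ :=
  𝔼 ω : ΩG, 𝔼 f ∈ El W, 𝔼 b : Bool, 𝔼 e : ΩE,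
    ind (S.ml W (S.o1 (f, ω)) ((S.enc (S.o1 (f, ω)) b e).run f)
      (S.k2 W n₂ τ (S.o1 (f, ω)) (S.k1 W n₁ t₁ (S.o1 (f, ω)) f)
        ((S.enc (S.o1 (f, ω)) b e).run f) f) = b)

/-- main inequality -/
theorem main_ineq {q r k₁ k₂ T₁ T₂ : ℕ} (hr : Module.length K R ≤ r) (hq : S.QueryBound q)
    (hk₁ : 0 < k₁) (hn₁ : k₁ * q ≤ n₁) (hk₂ : 0 < k₂) (hn₂ : k₂ * q ≤ n₂)
    {τ' : ℕ} (hτ' : ∀ pk v, τ pk v ≤ τ')
    (hτ : ∀ pk v, 𝔼 z ∈ start (P2 ΩE W) Prod.fst v,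
      S.c2 W n₂ pk (S.o2 pk z) (S.k2 W n₂ τ pk v (S.o2 pk z) z.1) ≤ (r * q : ℝ) / T₂)
    (ht : 𝔼 z ∈ P1 ΩG W, S.c1 W n₁ (S.o1 z) (S.k1 W n₁ t₁ (S.o1 z) z.1) ≤ (r * q : ℝ) / T₁) :
    S.decProb W ≤ S.advE W n₁ t₁ n₂ τ +
      2 * ((r * q : ℝ) / T₁ + r * (q + τ' * n₂) / k₁) + ((r * q : ℝ) / T₂ + 2 * r * q / k₂) := by
  have hb1 := S.bad1 W n₁ t₁ n₂ τ hr hq hk₁ hn₁ hτ' ht
  -- the decryption probability
  have hdec : S.decProb W = 𝔼 ω : ΩG, 𝔼 f ∈ El W,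
      𝔼 w ∈ El (van (van W (dm (S.k1 W n₁ t₁ (S.o1 (f, ω)) f))) (S.Q1 (f, ω))),
        𝔼 b : Bool, 𝔼 e : ΩE, 𝔼 d : ΩD,
          ind ((S.dec ((S.gen ω).run f).2 ((S.enc (S.o1 (f, ω)) b e).run (f + w)) d).run
            (f + w) = b) := by
    rw [decProb, Finset.expect_comm]
    refine Finset.expect_congr rfl fun ω _ => ?_
    have h := S.resample1 W n₁ t₁ ω fun pk sk _ h => 𝔼 b : Bool, 𝔼 e : ΩE, 𝔼 d : ΩD,
      ind ((S.dec sk ((S.enc pk b e).run h) d).run h = b)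
    simp only [ind_eq] at h ⊢
    exact h
  have hadv : S.advE W n₁ t₁ n₂ τ = 𝔼 ω : ΩG, 𝔼 f ∈ El W,
      𝔼 w ∈ El (van (van W (dm (S.k1 W n₁ t₁ (S.o1 (f, ω)) f))) (S.Q1 (f, ω))),
        𝔼 b : Bool, 𝔼 e : ΩE,
          ind (S.ml W (S.o1 (f, ω)) ((S.enc (S.o1 (f, ω)) b e).run (f + w))
            (S.k2 W n₂ τ (S.o1 (f, ω)) (S.k1 W n₁ t₁ (S.o1 (f, ω)) f)
              ((S.enc (S.o1 (f, ω)) b e).run (f + w)) (f + w)) = b) := by
    rw [advE]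
    refine Finset.expect_congr rfl fun ω _ => ?_
    exact S.resample1 W n₁ t₁ ω fun pk _ v h => 𝔼 b : Bool, 𝔼 e : ΩE,
      ind (S.ml W pk ((S.enc pk b e).run h)
        (S.k2 W n₂ τ pk v ((S.enc pk b e).run h) h) = b)
  have he1 : 𝔼 z ∈ P1 ΩG W, S.e1 W n₁ t₁ n₂ τ z =
      𝔼 ω : ΩG, 𝔼 f ∈ El W, S.e1 W n₁ t₁ n₂ τ (f, ω) := by
    rw [P1, Finset.expect_product, Finset.expect_comm]
  rw [he1] at hb1
  have key : ∀ (ω : ΩG) (f : D → R), f ∈ El W →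
      𝔼 w ∈ El (van (van W (dm (S.k1 W n₁ t₁ (S.o1 (f, ω)) f))) (S.Q1 (f, ω))),
        𝔼 b : Bool, 𝔼 e : ΩE, 𝔼 d : ΩD,
          ind ((S.dec ((S.gen ω).run f).2 ((S.enc (S.o1 (f, ω)) b e).run (f + w)) d).run
            (f + w) = b) ≤
      𝔼 w ∈ El (van (van W (dm (S.k1 W n₁ t₁ (S.o1 (f, ω)) f))) (S.Q1 (f, ω))),
        𝔼 b : Bool, 𝔼 e : ΩE,
          ind (S.ml W (S.o1 (f, ω)) ((S.enc (S.o1 (f, ω)) b e).run (f + w))
            (S.k2 W n₂ τ (S.o1 (f, ω)) (S.k1 W n₁ t₁ (S.o1 (f, ω)) f)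
              ((S.enc (S.o1 (f, ω)) b e).run (f + w)) (f + w)) = b) +
      2 * S.e1 W n₁ t₁ n₂ τ (f, ω) + ((r * q : ℝ) / T₂ + 2 * r * q / k₂) := by
    intro ω f hf
    rw [mem_El] at hf
    set pk := S.o1 (f, ω)
    set v := S.k1 W n₁ t₁ pk f with hv
    set G := S.Q1 (f, ω)
    set sk := ((S.gen ω).run f).2
    have hvf : Ext v f := know_ext W _ _ _ _ _ (ext_none f) _
    have hG : G.card ≤ q := (QAlg.card_queries_le _ _).trans (hq.1 _ _)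
    have a1 := S.step_ideal W n₂ τ (pk := pk) (sk := sk) hf hvf G
    have a2 := S.step_ml W n₂ τ pk sk v f G
    have a3 := S.step_back W n₂ τ (pk := pk) hf hvf G
    have a4 := S.bad2 W n₂ τ (T₂ := T₂) hr hq hk₂ hn₂ (pk := pk) (v := v) (hτ pk v) f hG sk
    have a5 : S.e1 W n₁ t₁ n₂ τ (f, ω) = 𝔼 z ∈ start (P2 ΩE W) Prod.fst v,
      mi (van W (dm v)) G (S.Q2 pk z ∪ dm (S.k2 W n₂ τ pk v (S.o2 pk z) z.1)) := rfl
    have c1 : 𝔼 w ∈ El (van (van W (dm v)) G), 𝔼 b : Bool, 𝔼 e : ΩE, 𝔼 d : ΩD,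
          ind ((S.dec sk ((S.enc pk b e).run (f + w)) d).run (f + w) = b) =
        𝔼 b : Bool, 𝔼 e : ΩE, 𝔼 w ∈ El (van (van W (dm v)) G), 𝔼 d : ΩD,
          ind ((S.dec sk ((S.enc pk b e).run (f + w)) d).run (f + w) = b) := by
      rw [Finset.expect_comm]
      refine Finset.expect_congr rfl fun b _ => ?_
      rw [Finset.expect_comm]
    have c2 : 𝔼 w ∈ El (van (van W (dm v)) G), 𝔼 b : Bool, 𝔼 e : ΩE,
          ind (S.ml W pk ((S.enc pk b e).run (f + w))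
            (S.k2 W n₂ τ pk v ((S.enc pk b e).run (f + w)) (f + w)) = b) =
        𝔼 b : Bool, 𝔼 e : ΩE, 𝔼 w ∈ El (van (van W (dm v)) G),
          ind (S.ml W pk ((S.enc pk b e).run (f + w))
            (S.k2 W n₂ τ pk v ((S.enc pk b e).run (f + w)) (f + w)) = b) := by
      rw [Finset.expect_comm]
      refine Finset.expect_congr rfl fun b _ => ?_
      rw [Finset.expect_comm]
    rw [c1, c2, a5]
    linarith
  rw [hdec, hadv]
  calc 𝔼 ω : ΩG, 𝔼 f ∈ El W,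
      𝔼 w ∈ El (van (van W (dm (S.k1 W n₁ t₁ (S.o1 (f, ω)) f))) (S.Q1 (f, ω))),
        𝔼 b : Bool, 𝔼 e : ΩE, 𝔼 d : ΩD,
          ind ((S.dec ((S.gen ω).run f).2 ((S.enc (S.o1 (f, ω)) b e).run (f + w)) d).run
            (f + w) = b)
      ≤ 𝔼 ω : ΩG, 𝔼 f ∈ El W,
        (𝔼 w ∈ El (van (van W (dm (S.k1 W n₁ t₁ (S.o1 (f, ω)) f))) (S.Q1 (f, ω))),
          𝔼 b : Bool, 𝔼 e : ΩE,
            ind (S.ml W (S.o1 (f, ω)) ((S.enc (S.o1 (f, ω)) b e).run (f + w))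
              (S.k2 W n₂ τ (S.o1 (f, ω)) (S.k1 W n₁ t₁ (S.o1 (f, ω)) f)
                ((S.enc (S.o1 (f, ω)) b e).run (f + w)) (f + w)) = b) +
        2 * S.e1 W n₁ t₁ n₂ τ (f, ω) + ((r * q : ℝ) / T₂ + 2 * r * q / k₂)) :=
        Finset.expect_le_expect fun ω _ => Finset.expect_le_expect fun f hf => key ω f hf
    _ ≤ _ := by
        simp only [Finset.expect_add_distrib, ← Finset.mul_expect]
        have hc : 𝔼 _ω : ΩG, 𝔼 _f ∈ El W, (r * q : ℝ) / T₂ ≤ (r * q : ℝ) / T₂ :=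
          (Finset.expect_le_expect fun _ _ => expect_const_le _ (by positivity)).trans
            (expect_const_le _ (by positivity))
        have hc' : 𝔼 _ω : ΩG, 𝔼 _f ∈ El W, (2 * r * q : ℝ) / k₂ ≤ (2 * r * q : ℝ) / k₂ :=
          (Finset.expect_le_expect fun _ _ => expect_const_le _ (by positivity)).trans
            (expect_const_le _ (by positivity))
        linarith

end PKE

end Pool.Agent.ALG70
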